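import Mathlib

/-!
# Expansions in `1 / j` with rational coefficients, and tail sums
-/

set_option autoImplicit false

namespace Pool.Agent.K9h52.CS

open Filter Asymptotics Topology Polynomial

/-- `f j = P (1 / j) + O (j ^ (- K))` -/
def EXP (K : ℕ) (f : ℕ → ℝ) (P : ℚ[X]) : Prop :=
  (fun j : ℕ => f j - aeval ((j : ℝ)⁻¹) P) =O[atTop] fun j : ℕ => ((j : ℝ)⁻¹) ^ K

lemma inv_le_one {j : ℕ} : ((j : ℝ)⁻¹) ≤ 1 := by
  rcases Nat.eq_zero_or_pos j with h | h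
  · rw [h]; simp
  · have : (1 : ℝ) ≤ j := by exact_mod_cast h
    exact inv_le_one_of_one_le₀ this

lemma inv_nn (j : ℕ) : 0 ≤ ((j : ℝ)⁻¹) := by positivity

lemma pow_O {K L : ℕ} (h : K ≤ L) :
    (fun j : ℕ => ((j : ℝ)⁻¹) ^ L) =O[atTop] fun j : ℕ => ((j : ℝ)⁻¹) ^ K := by
  refine IsBigO.of_bound 1 (Eventually.of_forall fun j => ?_)
  rw [one_mul, Real.norm_of_nonneg (pow_nonneg (inv_nn j) _), Real.norm_of_nonneg (pow_nonneg (inv_nn j) _)]
  exact pow_le_pow_of_le_one (inv_nn j) inv_le_one h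

lemma aeval_O (P : ℚ[X]) : (fun j : ℕ => aeval ((j : ℝ)⁻¹) P) =O[atTop] fun _ : ℕ => (1 : ℝ) := by
  have h1 : Tendsto (fun j : ℕ => aeval ((j : ℝ)⁻¹) P) atTop (𝓝 (aeval (0 : ℝ) P)) := by
    have h2 : Continuous fun x : ℝ => aeval x P := by
      exact Polynomial.continuous_aeval P
    exact (h2.tendsto 0).comp tendsto_inv_atTop_nhds_zero_nat
  exact h1.isBigO_one ℝ

lemma aeval_tendsto (P : ℚ[X]) : Tendsto (fun j : ℕ => aeval ((j : ℝ)⁻¹) P) atTop (𝓝 ((P.coeff 0 : ℚ) : ℝ)) := by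
  have h2 : Continuous fun x : ℝ => aeval x P := Polynomial.continuous_aeval P
  have h1 := (h2.tendsto 0).comp tendsto_inv_atTop_nhds_zero_nat
  have h3 : aeval (0 : ℝ) P = ((P.coeff 0 : ℚ) : ℝ) := by
    rw [← Polynomial.coeff_zero_eq_aeval_zero' (A := ℝ) P]
    rfl
  rw [h3] at h1
  exact h1

lemma EXP.mono {K L : ℕ} (h : K ≤ L) {f : ℕ → ℝ} {P : ℚ[X]} (hf : EXP L f P) : EXP K f P :=
  IsBigO.trans hf (pow_O h)

lemma EXP.self (K : ℕ) (P : ℚ[X]) : EXP K (fun j => aeval ((j : ℝ)⁻¹) P) P := by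
  have : (fun j : ℕ => aeval ((j : ℝ)⁻¹) P - aeval ((j : ℝ)⁻¹) P) = fun _ => (0 : ℝ) := by
    funext j; rw [sub_self]
  rw [EXP, this]
  exact isBigO_zero _ _

lemma EXP.bdd {K : ℕ} {f : ℕ → ℝ} {P : ℚ[X]} (hf : EXP K f P) : f =O[atTop] fun _ : ℕ => (1 : ℝ) := by
  have h1 : EXP 0 f P := hf.mono (Nat.zero_le _)
  rw [EXP] at h1
  simp only [pow_zero] at h1
  have h2 := h1.add (aeval_O P)
  refine h2.congr_left fun j => ?_
  ring

lemma EXP.add {K : ℕ} {f g : ℕ → ℝ} {P Q : ℚ[X]} (hf : EXP K f P) (hg : EXP K g Q) :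
    EXP K (fun j => f j + g j) (P + Q) := by
  refine (IsBigO.add hf hg).congr_left fun j => ?_
  rw [map_add]
  ring

lemma EXP.sub {K : ℕ} {f g : ℕ → ℝ} {P Q : ℚ[X]} (hf : EXP K f P) (hg : EXP K g Q) :
    EXP K (fun j => f j - g j) (P - Q) := by
  refine (IsBigO.sub hf hg).congr_left fun j => ?_
  rw [map_sub]
  ring

lemma EXP.smul {K : ℕ} (q : ℚ) {f : ℕ → ℝ} {P : ℚ[X]} (hf : EXP K f P) :
    EXP K (fun j => (q : ℝ) * f j) (C q * P) := by
  refine (IsBigO.const_mul_left hf (q : ℝ)).congr_left fun j => ?_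
  rw [map_mul, aeval_C]
  have : algebraMap ℚ ℝ q = (q : ℝ) := rfl
  rw [this]
  ring

lemma EXP.mul {K : ℕ} {f g : ℕ → ℝ} {P Q : ℚ[X]} (hf : EXP K f P) (hg : EXP K g Q) :
    EXP K (fun j => f j * g j) (P * Q) := by
  have h1 := IsBigO.mul hf hg.bdd
  have h2 := IsBigO.mul (aeval_O P) hg
  simp only [mul_one, one_mul] at h1 h2
  refine (h1.add h2).congr_left fun j => ?_
  rw [map_mul]
  ring

lemma EXP.pow {K : ℕ} {f : ℕ → ℝ} {P : ℚ[X]} (hf : EXP K f P) (a : ℕ) :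
    EXP K (fun j => f j ^ a) (P ^ a) := by
  induction a with
  | zero =>
    have h := EXP.self K (1 : ℚ[X])
    simpa [EXP] using h
  | succ a ih =>
    have h := ih.mul hf
    simpa only [pow_succ] using h

/-- the truncated geometric series -/
noncomputable def geo (K : ℕ) : ℚ[X] := X + X ^ 2 + X ^ 3 * ∑ k ∈ Finset.range K, X ^ k

lemma pred_exp (K : ℕ) : EXP (K + 3) (fun n : ℕ => ((n : ℝ) - 1)⁻¹) (geo K) := by
  refine IsBigO.of_bound 2 ?_
  filter_upwards [eventually_ge_atTop 2] with n hn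
  have hn2 : (2 : ℝ) ≤ n := by exact_mod_cast hn
  have hn0 : (0 : ℝ) < n := by linarith
  have hn1 : (0 : ℝ) < (n : ℝ) - 1 := by linarith
  have e0 : aeval ((n : ℝ)⁻¹) (geo K) = (n : ℝ)⁻¹ + (n : ℝ)⁻¹ ^ 2 +
      (n : ℝ)⁻¹ ^ 3 * ∑ k ∈ Finset.range K, (n : ℝ)⁻¹ ^ k := by
    rw [geo]
    simp only [map_add, map_mul, map_pow, aeval_X, map_sum]
  have hx1 : (n : ℝ)⁻¹ ≠ 1 := by
    intro h
    rw [inv_eq_one] at h
    linarith
  have e1 : ((n : ℝ) - 1)⁻¹ - aeval ((n : ℝ)⁻¹) (geo K) = ((n : ℝ)⁻¹) ^ (K + 2) * ((n : ℝ) - 1)⁻¹ := by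
    rw [e0, geom_sum_eq hx1]
    have hne : (n : ℝ)⁻¹ - 1 ≠ 0 := sub_ne_zero.2 hx1
    have e2 : (n : ℝ)⁻¹ - 1 = - (((n : ℝ) - 1) * (n : ℝ)⁻¹) := by field_simp; ring
    rw [e2]
    have hn' : (n : ℝ) ≠ 0 := hn0.ne'
    have hn1' : (n : ℝ) - 1 ≠ 0 := hn1.ne'
    rw [pow_add]
    generalize (n : ℝ)⁻¹ ^ K = z
    field_simp
    ring
  rw [e1, Real.norm_of_nonneg (by positivity), Real.norm_of_nonneg (by positivity)]
  have h3 : ((n : ℝ) - 1)⁻¹ ≤ 2 * (n : ℝ)⁻¹ := by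
    rw [← div_eq_mul_inv, inv_le_comm₀ hn1 (by positivity), inv_div]
    linarith
  calc ((n : ℝ)⁻¹) ^ (K + 2) * ((n : ℝ) - 1)⁻¹ ≤ ((n : ℝ)⁻¹) ^ (K + 2) * (2 * (n : ℝ)⁻¹) :=
        mul_le_mul_of_nonneg_left h3 (by positivity)
    _ = 2 * ((n : ℝ)⁻¹) ^ (K + 3) := by ring

lemma geo_pow (K : ℕ) (a : ℕ) : ∃ R : ℚ[X], geo K ^ (a + 1) = X ^ (a + 1) + C ((a : ℚ) + 1) * X ^ (a + 2) +
    X ^ (a + 3) * R := by
  induction a with
  | zero =>
    refine ⟨∑ k ∈ Finset.range K, X ^ k, ?_⟩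
    rw [geo]
    simp
  | succ a ih =>
    obtain ⟨R, hR⟩ := ih
    set G3 : ℚ[X] := ∑ k ∈ Finset.range K, X ^ k with hG3
    refine ⟨G3 + C ((a : ℚ) + 1) * (1 + X * G3) + R * (1 + X + X ^ 2 * G3), ?_⟩
    rw [pow_succ (geo K) (a + 1), hR, geo, ← hG3]
    push_cast
    simp only [map_add, C_1]
    ring

/-- telescoping up to `O (n ^ (- K - 1))` -/
def TEL (K : ℕ) (Q : ℚ[X]) : Prop := ∃ P : ℚ[X], P.coeff 0 = 0 ∧
  (fun n : ℕ => aeval (((n : ℝ) - 1)⁻¹) P - aeval ((n : ℝ)⁻¹) P - aeval ((n : ℝ)⁻¹) Q) =O[atTop]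
    fun n : ℕ => ((n : ℝ)⁻¹) ^ (K + 1)

lemma TEL.add {K : ℕ} {Q Q' : ℚ[X]} (h : TEL K Q) (h' : TEL K Q') : TEL K (Q + Q') := by
  obtain ⟨P, h1, h2⟩ := h
  obtain ⟨P', h1', h2'⟩ := h'
  refine ⟨P + P', by rw [coeff_add, h1, h1', add_zero], ?_⟩
  refine (h2.add h2').congr_left fun n => ?_
  simp only [map_add]
  ring

lemma TEL.smul {K : ℕ} {Q : ℚ[X]} (q : ℚ) (h : TEL K Q) : TEL K (C q * Q) := by
  obtain ⟨P, h1, h2⟩ := h
  refine ⟨C q * P, by rw [coeff_C_mul, h1, mul_zero], ?_⟩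
  refine (h2.const_mul_left (q : ℝ)).congr_left fun n => ?_
  simp only [map_mul, aeval_C]
  have : algebraMap ℚ ℝ q = (q : ℝ) := rfl
  rw [this]
  ring

lemma TEL.big {K : ℕ} (R : ℚ[X]) : TEL K (X ^ (K + 1) * R) := by
  refine ⟨0, coeff_zero 0, ?_⟩
  have h1 := (isBigO_refl (fun n : ℕ => ((n : ℝ)⁻¹) ^ (K + 1)) atTop).mul (aeval_O R)
  simp only [mul_one] at h1
  refine h1.neg_left.congr_left fun n => ?_
  simp only [map_zero, map_mul, map_pow, aeval_X, sub_self, zero_sub]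

lemma tel_step (K : ℕ) : ∀ (d m : ℕ), 2 ≤ m → m + d = K + 1 → ∀ R : ℚ[X], TEL K (X ^ m * R) := by
  intro d
  induction d with
  | zero =>
    intro m _ hm R
    rw [add_zero] at hm
    rw [hm]
    exact TEL.big R
  | succ d ih =>
    intro m hm hmd R
    obtain ⟨a, rfl⟩ : ∃ a, m = a + 2 := ⟨m - 2, by omega⟩
    have ih' : ∀ R : ℚ[X], TEL K (X ^ (a + 3) * R) := ih (a + 3) (by omega) (by omega)
    -- the monomial
    have hmono : TEL K (X ^ (a + 2)) := by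
      obtain ⟨R', hR'⟩ := geo_pow K a
      have h1 : TEL K (geo K ^ (a + 1) - X ^ (a + 1)) := by
        refine ⟨X ^ (a + 1), by rw [coeff_X_pow]; simp, ?_⟩
        have h2 := (pred_exp K).pow (a + 1)
        have h3 : EXP (K + 1) (fun n : ℕ => (((n : ℝ) - 1)⁻¹) ^ (a + 1)) (geo K ^ (a + 1)) := h2.mono (by omega)
        refine IsBigO.congr_left h3 fun n => ?_
        simp only [map_sub, map_pow, aeval_X]
        ring
      have h4 : TEL K (C (-1) * (X ^ (a + 3) * R')) := (ih' R').smul (-1)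
      have h5 := (h1.add h4).smul (((a : ℚ) + 1)⁻¹)
      have e : C (((a : ℚ) + 1)⁻¹) * (geo K ^ (a + 1) - X ^ (a + 1) + C (-1) * (X ^ (a + 3) * R')) =
          X ^ (a + 2) := by
        rw [hR']
        have e1 : (X : ℚ[X]) ^ (a + 1) + C ((a : ℚ) + 1) * X ^ (a + 2) + X ^ (a + 3) * R' - X ^ (a + 1) +
            C (-1) * (X ^ (a + 3) * R') = C ((a : ℚ) + 1) * X ^ (a + 2) := by
          rw [C_neg, C_1]
          ring
        rw [e1, ← mul_assoc, ← C_mul, inv_mul_cancel₀ (by positivity), C_1, one_mul]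
      rwa [e] at h5
    have h6 := (hmono.smul (R.coeff 0)).add (ih' R.divX)
    have e : C (R.coeff 0) * X ^ (a + 2) + X ^ (a + 3) * R.divX = X ^ (a + 2) * R := by
      conv_rhs => rw [← X_mul_divX_add R]
      ring
    rwa [e] at h6

lemma tel_all (K : ℕ) (R : ℚ[X]) : TEL K (X ^ 2 * R) := by
  rcases Nat.lt_or_ge (K + 1) 2 with h | h
  · -- `K = 0`
    have hK : K = 0 := by omega
    subst hK
    have h1 := TEL.big (K := 0) (X * R)
    rwa [show (X : ℚ[X]) ^ (0 + 1) * (X * R) = X ^ 2 * R by ring] at h1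
  · exact tel_step K (K + 1 - 2) 2 le_rfl (by omega) R

/-- bound for tails -/
lemma tail_O {K : ℕ} (hK : 1 ≤ K) {g h : ℕ → ℝ} (hg : Tendsto g atTop (𝓝 0))
    (hgh : ∀ᶠ j in atTop, g j - g (j + 1) = h (j + 1))
    (hh : h =O[atTop] fun n : ℕ => ((n : ℝ)⁻¹) ^ (K + 1)) :
    g =O[atTop] fun n : ℕ => ((n : ℝ)⁻¹) ^ K := by
  obtain ⟨C, hC⟩ := hh.bound
  rw [eventually_atTop] at hC hgh
  obtain ⟨N0, hN0⟩ := hC
  obtain ⟨N1, hN1⟩ := hgh
  have hC' : ∀ n ≥ N0, |h n| ≤ |C| * ((n : ℝ)⁻¹) ^ (K + 1) := by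
    intro n hn
    have h1 := hN0 n hn
    rw [Real.norm_eq_abs, Real.norm_of_nonneg (pow_nonneg (inv_nn n) _)] at h1
    exact h1.trans (mul_le_mul_of_nonneg_right (le_abs_self C) (pow_nonneg (inv_nn n) _))
  refine IsBigO.of_bound |C| ?_
  filter_upwards [eventually_ge_atTop (max 1 (max N0 N1))] with j hj
  have hj1 : 1 ≤ j := le_trans (le_max_left _ _) hj
  have hj0 : N0 ≤ j := le_trans (le_trans (le_max_left _ _) (le_max_right _ _)) hj
  have hj2 : N1 ≤ j := le_trans (le_trans (le_max_right _ _) (le_max_right _ _)) hj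
  have key : ∀ r : ℕ, |g j - g (j + r)| ≤ |C| * (((j : ℝ)⁻¹) ^ K - (((j + r : ℕ) : ℝ)⁻¹) ^ K) := by
    intro r
    induction r with
    | zero => simp
    | succ r ih =>
      have h1 := hN1 (j + r) (by omega)
      have h2 := hC' (j + r + 1) (by omega)
      rw [← h1] at h2
      have h3 : (((j + r + 1 : ℕ) : ℝ)⁻¹) ^ (K + 1) ≤
          (((j + r : ℕ) : ℝ)⁻¹) ^ K - (((j + r + 1 : ℕ) : ℝ)⁻¹) ^ K := by
        set x : ℝ := ((j + r : ℕ) : ℝ) with hx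
        have hx1 : 1 ≤ x := by rw [hx]; exact_mod_cast (by omega : 1 ≤ j + r)
        have hx0 : 0 < x := by linarith
        have e : ((j + r + 1 : ℕ) : ℝ) = x + 1 := by rw [hx]; push_cast; ring
        rw [e]
        have h4 : (x⁻¹) ^ K = ((x + 1)⁻¹) ^ K * ((x + 1) / x) ^ K := by
          rw [← mul_pow]
          congr 1
          field_simp
        have h5 : 1 + (x + 1)⁻¹ ≤ ((x + 1) / x) ^ K := by
          have h6 : 1 + (x + 1)⁻¹ ≤ (x + 1) / x := by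
            rw [le_div_iff₀ hx0]
            have : (x + 1)⁻¹ * x ≤ 1 := by
              rw [inv_mul_le_iff₀ (by linarith)]
              linarith
            linarith
          have h7 : (1 : ℝ) ≤ (x + 1) / x := by
            rw [le_div_iff₀ hx0]
            linarith
          calc 1 + (x + 1)⁻¹ ≤ ((x + 1) / x) ^ 1 := by rw [pow_one]; exact h6
            _ ≤ ((x + 1) / x) ^ K := pow_le_pow_right₀ h7 hK
        have h8 : 0 ≤ ((x + 1)⁻¹) ^ K := by positivity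
        have h9 := mul_le_mul_of_nonneg_left h5 h8
        rw [← h4] at h9
        rw [pow_succ]
        linarith
      have h4 : g j - g (j + (r + 1)) = (g j - g (j + r)) + (g (j + r) - g (j + r + 1)) := by
        rw [show j + (r + 1) = j + r + 1 by ring]
        ring
      rw [h4]
      refine (abs_add_le _ _).trans ?_
      have h5 := mul_le_mul_of_nonneg_left h3 (abs_nonneg C)
      have e : ((j + (r + 1) : ℕ) : ℝ) = ((j + r + 1 : ℕ) : ℝ) := by push_cast; ring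
      rw [e]
      linarith
  have hlim : Tendsto (fun r : ℕ => |g j - g (j + r)|) atTop (𝓝 |g j - 0|) := by
    refine (tendsto_const_nhds.sub (hg.comp ?_)).abs
    exact tendsto_atTop_mono (fun r => by omega : ∀ r : ℕ, r ≤ j + r) tendsto_id
  rw [sub_zero] at hlim
  rw [Real.norm_eq_abs, Real.norm_of_nonneg (pow_nonneg (inv_nn j) _)]
  refine le_of_tendsto hlim (Eventually.of_forall fun r => ?_)
  refine (key r).trans (mul_le_mul_of_nonneg_left ?_ (abs_nonneg C))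
  have : 0 ≤ (((j + r : ℕ) : ℝ)⁻¹) ^ K := pow_nonneg (inv_nn _) _
  linarith

/-- **tail sums have expansions** -/
lemma tail_exp {K : ℕ} (hK : 1 ≤ K) {g h : ℕ → ℝ} (hg : Tendsto g atTop (𝓝 0))
    (hgh : ∀ j, g j - g (j + 1) = h (j + 1)) {R : ℚ[X]} (hh : EXP (K + 1) h (X ^ 2 * R)) :
    ∃ P : ℚ[X], EXP K g P := by
  obtain ⟨P, hP0, hP⟩ := tel_all K R
  refine ⟨P, ?_⟩
  refine tail_O hK (h := fun n => (h n - aeval ((n : ℝ)⁻¹) (X ^ 2 * R)) -
    (aeval (((n : ℝ) - 1)⁻¹) P - aeval ((n : ℝ)⁻¹) P - aeval ((n : ℝ)⁻¹) (X ^ 2 * R))) ?_ ?_ ?_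
  · have h1 := aeval_tendsto P
    rw [hP0, Rat.cast_zero] at h1
    simpa using hg.sub h1
  · refine Eventually.of_forall fun j => ?_
    have h1 := hgh j
    have e : (((j + 1 : ℕ) : ℝ) - 1) = (j : ℝ) := by push_cast; ring
    rw [e, ← h1]
    ring
  · exact IsBigO.sub hh hP

end Pool.Agent.K9h52.CS
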