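import Mathlib
import Pool.Agent.TH507.ZS.HSb

/-!
# Iterated tails are linearly independent modulo `O (j ^ (- k))` for all `k`
-/

set_option autoImplicit false

namespace Pool.Agent.K9h52.CS

open Filter Asymptotics Topology Polynomial
open Pool.Agent.TH507.HS (AA gr gr_eq gr_zero gr_one gr_mul gr_sum gr_add gr_sub gr_neg gr_pow sig sig_gr KN kq kq_apply
  hyp Hyp W mem_W W_mono mul_mem_W ev ev_ne_zero ev_ne qj qj_mem fa)

/-- functions of polynomial growth -/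
def Bd : Subring (ℕ → ℝ) where
  carrier := {f | ∃ (C : ℝ) (k : ℕ), ∀ j : ℕ, |f j| ≤ C * ((j : ℝ) + 1) ^ k}
  zero_mem' := ⟨0, 0, fun j => by simp⟩
  one_mem' := ⟨1, 0, fun j => by simp⟩
  add_mem' := by
    rintro f g ⟨C, k, hC⟩ ⟨C', k', hC'⟩
    have h0 : 0 ≤ C := by have := (abs_nonneg _).trans (hC 0); simpa using this
    have h0' : 0 ≤ C' := by have := (abs_nonneg _).trans (hC' 0); simpa using this
    refine ⟨C + C', k + k', fun j => ?_⟩
    have h1 : (1 : ℝ) ≤ (j : ℝ) + 1 := by linarith [Nat.cast_nonneg (α := ℝ) j]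
    have h2 : ((j : ℝ) + 1) ^ k ≤ ((j : ℝ) + 1) ^ (k + k') := pow_le_pow_right₀ h1 (by omega)
    have h3 : ((j : ℝ) + 1) ^ k' ≤ ((j : ℝ) + 1) ^ (k + k') := pow_le_pow_right₀ h1 (by omega)
    rw [Pi.add_apply]
    refine (abs_add_le _ _).trans ?_
    have h4 := hC j
    have h5 := hC' j
    have h6 := mul_le_mul_of_nonneg_left h2 h0
    have h7 := mul_le_mul_of_nonneg_left h3 h0'
    linarith
  mul_mem' := by
    rintro f g ⟨C, k, hC⟩ ⟨C', k', hC'⟩
    refine ⟨C * C', k + k', fun j => ?_⟩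
    rw [Pi.mul_apply, abs_mul]
    calc |f j| * |g j| ≤ (C * ((j : ℝ) + 1) ^ k) * (C' * ((j : ℝ) + 1) ^ k') :=
          mul_le_mul (hC j) (hC' j) (abs_nonneg _) ((abs_nonneg _).trans (hC j))
      _ = C * C' * ((j : ℝ) + 1) ^ (k + k') := by ring
  neg_mem' := by
    rintro f ⟨C, k, hC⟩
    exact ⟨C, k, fun j => by rw [Pi.neg_apply, abs_neg]; exact hC j⟩

lemma Bd_O {f : ℕ → ℝ} (hf : f ∈ Bd) : ∃ l : ℕ, f =O[atTop] fun j : ℕ => (j : ℝ) ^ l := by
  obtain ⟨C, k, hC⟩ := hf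
  have h0 : 0 ≤ C := by have := (abs_nonneg _).trans (hC 0); simpa using this
  refine ⟨k, IsBigO.of_bound (C * 2 ^ k) ?_⟩
  filter_upwards [eventually_ge_atTop 1] with j hj
  have hj1 : (1 : ℝ) ≤ j := by exact_mod_cast hj
  rw [Real.norm_eq_abs, Real.norm_of_nonneg (by positivity), mul_assoc, ← mul_pow]
  refine (hC j).trans (mul_le_mul_of_nonneg_left ?_ h0)
  exact pow_le_pow_left₀ (by positivity) (by linarith) _

lemma shift_O {f : ℕ → ℝ} {k : ℕ} (h : f =O[atTop] fun j : ℕ => ((j : ℝ)⁻¹) ^ k) :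
    (fun j => f (j + 1)) =O[atTop] fun j : ℕ => ((j : ℝ)⁻¹) ^ k := by
  have h1 := h.comp_tendsto (tendsto_add_atTop_nat 1)
  refine h1.trans (IsBigO.of_bound 1 ?_)
  filter_upwards [eventually_ge_atTop 1] with j hj
  have hj1 : (1 : ℝ) ≤ j := by exact_mod_cast hj
  have hj0 : (0 : ℝ) < j := by linarith
  simp only [Function.comp]
  rw [one_mul, Real.norm_of_nonneg (by positivity), Real.norm_of_nonneg (by positivity)]
  refine pow_le_pow_left₀ (by positivity) ?_ _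
  apply inv_anti₀ hj0
  push_cast
  linarith

/-- the ideal of the functions decreasing faster than every power -/
def II : Ideal Bd where
  carrier := {f | ∀ k : ℕ, f.1 =O[atTop] fun j : ℕ => ((j : ℝ)⁻¹) ^ k}
  zero_mem' := fun k => isBigO_zero _ _
  add_mem' := by
    intro f g hf hg k
    exact (hf k).add (hg k)
  smul_mem' := by
    intro c f hf k
    obtain ⟨l, hl⟩ := Bd_O c.2
    have h1 := hl.mul (hf (k + l))
    refine h1.trans (IsBigO.of_bound 1 ?_)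
    filter_upwards [eventually_ge_atTop 1] with j hj
    have hj1 : (1 : ℝ) ≤ j := by exact_mod_cast hj
    have hj0 : (0 : ℝ) < j := by linarith
    rw [one_mul]
    refine le_of_eq ?_
    congr 1
    rw [pow_add, mul_comm, mul_assoc, ← mul_pow, inv_mul_cancel₀ hj0.ne', one_pow, mul_one]

lemma mem_II {f : Bd} : f ∈ II ↔ ∀ k : ℕ, f.1 =O[atTop] fun j : ℕ => ((j : ℝ)⁻¹) ^ k := Iff.rfl

/-- the ring -/
abbrev RR := Bd ⧸ II

/-- the shift -/
def shf : Bd →+* Bd where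
  toFun f := ⟨fun j => f.1 (j + 1), by
    obtain ⟨C, k, hC⟩ := f.2
    have h0 : 0 ≤ C := by have := (abs_nonneg _).trans (hC 0); simpa using this
    refine ⟨C * 2 ^ k, k, fun j => ?_⟩
    refine (hC (j + 1)).trans ?_
    rw [mul_assoc, ← mul_pow]
    refine mul_le_mul_of_nonneg_left (pow_le_pow_left₀ (by positivity) ?_ _) h0
    push_cast
    linarith [Nat.cast_nonneg (α := ℝ) j]⟩
  map_one' := rfl
  map_zero' := rfl
  map_mul' _ _ := rfl
  map_add' _ _ := rfl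

lemma shf_II : II ≤ II.comap shf := by
  intro f hf k
  exact shift_O (hf k)

/-- the shift on the quotient -/
def sg : RR →+* RR := Ideal.quotientMap II shf shf_II

lemma sg_mk (f : Bd) : sg (Ideal.Quotient.mk II f) = Ideal.Quotient.mk II (shf f) :=
  Ideal.quotientMap_mk

/-- sequences of rational numbers of polynomial growth -/
noncomputable def Bq : Subring (ℕ → ℚ) := Bd.comap ((Rat.castHom ℝ).compLeft ℕ)

lemma mem_Bq {f : ℕ → ℚ} : f ∈ Bq ↔ ∃ (C : ℝ) (k : ℕ), ∀ j : ℕ, |(f j : ℝ)| ≤ C * ((j : ℝ) + 1) ^ k := Iff.rfl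

/-- the embedding -/
noncomputable def castR : Bq →+* Bd where
  toFun f := ⟨fun j => ((f.1 j : ℚ) : ℝ), f.2⟩
  map_one' := by
    apply Subtype.ext
    funext j
    exact Rat.cast_one
  map_zero' := by
    apply Subtype.ext
    funext j
    exact Rat.cast_zero
  map_mul' a b := by
    apply Subtype.ext
    funext j
    exact Rat.cast_mul _ _
  map_add' a b := by
    apply Subtype.ext
    funext j
    exact Rat.cast_add _ _

/-- the class of a sequence of rational numbers -/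
noncomputable def ph : Bq →+* RR := (Ideal.Quotient.mk II).comp castR

/-- the germ -/
noncomputable def ga : Bq →+* AA := (Filter.Germ.coeRingHom (atTop : Filter ℕ)).comp Bq.subtype

lemma ga_apply (f : Bq) : ga f = gr f.1 := rfl

lemma ph_eq {f g : Bq} (h : ga f = ga g) : ph f = ph g := by
  rw [ga_apply, ga_apply, gr_eq] at h
  rw [ph, RingHom.comp_apply, RingHom.comp_apply, Ideal.Quotient.mk_eq_mk_iff_sub_mem, mem_II]
  intro k
  have h1 : (castR f - castR g).1 =ᶠ[atTop] fun _ => (0 : ℝ) := by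
    filter_upwards [h] with j hj
    show ((f.1 j : ℚ) : ℝ) - ((g.1 j : ℚ) : ℝ) = 0
    rw [hj, sub_self]
  exact (isBigO_zero _ _).congr' h1.symm EventuallyEq.rfl

/-- the shift of sequences of rational numbers -/
noncomputable def shq (f : Bq) : Bq := ⟨fun j => f.1 (j + 1), (shf (castR f)).2⟩

lemma ga_shq (f : Bq) : ga (shq f) = sig (ga f) := rfl

lemma ph_shq (f : Bq) : ph (shq f) = sg (ph f) := by
  rw [ph, RingHom.comp_apply, RingHom.comp_apply, sg_mk]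
  rfl

lemma poly_Bq (P : ℤ[X]) : (fun m : ℕ => ev P (1 + 1 * m)) ∈ Bq := by
  induction P using Polynomial.induction_on' with
  | add p q hp hq =>
    have h := Bq.add_mem hp hq
    have e : (fun m : ℕ => ev (p + q) (1 + 1 * m)) = (fun m : ℕ => ev p (1 + 1 * m)) + fun m : ℕ => ev q (1 + 1 * m) := by
      funext m
      rw [Pool.Agent.TH507.HS.ev_add]
      rfl
    rw [e]
    exact h
  | monomial n a =>
    rw [mem_Bq]
    refine ⟨|(a : ℝ)|, n, fun j => ?_⟩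
    rw [ev, eval_monomial]
    push_cast
    rw [abs_mul, abs_pow, one_mul, abs_of_nonneg (by positivity : (0 : ℝ) ≤ 1 + (j : ℝ)), add_comm]

lemma rat_Bq (P Q : ℤ[X]) : (fun m : ℕ => ev P (1 + 1 * m) / ev Q (1 + 1 * m)) ∈ Bq := by
  obtain ⟨C, k, hC⟩ := poly_Bq P
  refine ⟨C, k, fun j => ?_⟩
  refine le_trans ?_ (hC j)
  show |((ev P (1 + 1 * j) / ev Q (1 + 1 * j) : ℚ) : ℝ)| ≤ |((ev P (1 + 1 * j) : ℚ) : ℝ)|
  rw [Rat.cast_div, abs_div]
  by_cases h : ev Q (1 + 1 * j) = 0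
  · rw [h, Rat.cast_zero, abs_zero, div_zero]
    exact abs_nonneg _
  · refine div_le_self (abs_nonneg _) ?_
    rw [ev] at h ⊢
    have h1 : Q.eval ((1 + 1 * j : ℕ) : ℤ) ≠ 0 := fun h2 => h (by rw [h2, Int.cast_zero])
    have h2 := Int.one_le_abs h1
    rw [Rat.cast_intCast, ← Int.cast_abs]
    exact_mod_cast h2

lemma KN_surj {g : AA} (hg : g ∈ KN 1 le_rfl) : ∃ b : Bq, ga b = g := by
  obtain ⟨P, Q, _, rfl⟩ := hg
  exact ⟨⟨_, rat_Bq P Q⟩, rfl⟩

/-- an integer polynomial decreasing faster than every power is zero -/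
lemma poly_II (P : ℤ[X]) (h : castR ⟨_, poly_Bq P⟩ ∈ II) : P = 0 := by
  by_contra hP
  obtain ⟨B, hB⟩ := ev_ne_zero hP
  have h1 := h 1
  have h2 : Tendsto (fun m : ℕ => ((ev P (1 + 1 * m) : ℚ) : ℝ)) atTop (𝓝 0) := by
    refine h1.trans_tendsto ?_
    simpa using tendsto_inv_atTop_nhds_zero_nat (𝕜 := ℝ)
  have h3 := h2.abs
  rw [abs_zero] at h3
  have h4 := h3.eventually (gt_mem_nhds (show (0 : ℝ) < 1 by norm_num))
  obtain ⟨m, hm1, hm2⟩ := (h4.and (eventually_ge_atTop B)).exists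
  have h5 := hB (1 + 1 * m) (by omega)
  have h6 := Int.one_le_abs h5
  have h7 : ((ev P (1 + 1 * m) : ℚ) : ℝ) = ((P.eval ((1 + 1 * m : ℕ) : ℤ) : ℤ) : ℝ) := by
    rw [ev, Rat.cast_intCast]
  rw [h7, ← Int.cast_abs] at hm1
  have h8 : |P.eval ((1 + 1 * m : ℕ) : ℤ)| < 1 := by exact_mod_cast hm1
  omega

/-- a rational function decreasing faster than every power is zero -/
lemma zero_of {b : Bq} (hb : ga b ∈ KN 1 le_rfl) (h : ph b = 0) : ga b = 0 := by
  obtain ⟨P, Q, hQ, hbe⟩ := hb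
  rw [ph, RingHom.comp_apply, Ideal.Quotient.eq_zero_iff_mem] at h
  have h1 : castR (⟨_, poly_Bq Q⟩) * castR b ∈ II := II.mul_mem_left _ h
  have h2 : ga (⟨_, poly_Bq Q⟩ * b) = ga ⟨_, poly_Bq P⟩ := by
    rw [map_mul, hbe, ga_apply, ga_apply, gr_mul, gr_eq]
    filter_upwards [ev_ne 1 le_rfl hQ] with m hm
    exact mul_div_cancel₀ _ hm
  have h3 := ph_eq h2
  have h4 : ph ⟨_, poly_Bq P⟩ = 0 := by
    rw [← h3, ph, RingHom.comp_apply, Ideal.Quotient.eq_zero_iff_mem, map_mul]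
    exact h1
  rw [ph, RingHom.comp_apply, Ideal.Quotient.eq_zero_iff_mem] at h4
  have h5 := poly_II P h4
  rw [hbe, h5, ← gr_zero]
  congr 1
  funext m
  rw [Pool.Agent.TH507.HS.ev_zero, zero_div]

/-- the rational functions -/
noncomputable def KK : Subring RR := ((KN 1 le_rfl).comap ga).map ph

lemma mem_KK {x : RR} : x ∈ KK ↔ ∃ b : Bq, ga b ∈ KN 1 le_rfl ∧ ph b = x := Iff.rfl

/-- constant sequences -/
noncomputable def cst : ℚ →+* Bq where
  toFun q := ⟨fun _ => q, ⟨|(q : ℝ)|, 0, fun j => by simp⟩⟩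
  map_one' := rfl
  map_zero' := rfl
  map_mul' _ _ := rfl
  map_add' _ _ := rfl

/-- constants -/
noncomputable def kr : ℚ →+* RR := ph.comp cst

lemma ga_cst (q : ℚ) : ga (cst q) = kq q := rfl

/-- the letters -/
noncomputable def fb (a : ℕ+) : Bq := ⟨fun m => - (1 / ((1 + 1 * m + 0 : ℕ) : ℚ)) ^ (a : ℕ), ⟨1, 0, fun j => by
  show |((- (1 / ((1 + 1 * j + 0 : ℕ) : ℚ)) ^ (a : ℕ) : ℚ) : ℝ)| ≤ 1 * ((j : ℝ) + 1) ^ 0
  push_cast
  rw [abs_neg, pow_zero, mul_one, abs_pow]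
  refine pow_le_one₀ (abs_nonneg _) ?_
  rw [abs_of_nonneg (by positivity), add_zero, one_mul]
  exact div_le_one_of_le₀ (by linarith [Nat.cast_nonneg (α := ℝ) j]) (by positivity)⟩⟩

lemma ga_fb (a : ℕ+) : ga (fb a) = - fa 1 a := by
  rw [fa, Finset.sum_range_one, qj, gr_pow, gr_neg]
  rfl

/-- the words: `Yw C (a :: w) j = C (a :: w) - ∑_{n ≤ j} n ^ (-a) Yw C w n` -/
noncomputable def Yw (C : List ℕ+ → ℝ) : List ℕ+ → ℕ → ℝ
  | [], _ => 1
  | a :: w, j => C (a :: w) - ∑ n ∈ Finset.range j, (((n + 1 : ℕ) : ℝ) ^ (a : ℕ))⁻¹ * Yw C w (n + 1)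

lemma Yw_nil (C : List ℕ+ → ℝ) (j : ℕ) : Yw C [] j = 1 := by rw [Yw]

lemma Yw_cons (C : List ℕ+ → ℝ) (a : ℕ+) (w : List ℕ+) (j : ℕ) : Yw C (a :: w) j =
    C (a :: w) - ∑ n ∈ Finset.range j, (((n + 1 : ℕ) : ℝ) ^ (a : ℕ))⁻¹ * Yw C w (n + 1) := by rw [Yw]

lemma Yw_succ (C : List ℕ+ → ℝ) (a : ℕ+) (w : List ℕ+) (j : ℕ) : Yw C (a :: w) (j + 1) =
    Yw C (a :: w) j - (((j + 1 : ℕ) : ℝ) ^ (a : ℕ))⁻¹ * Yw C w (j + 1) := by
  rw [Yw_cons, Yw_cons, Finset.sum_range_succ]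
  ring

lemma Yw_mem (C : List ℕ+ → ℝ) (w : List ℕ+) : Yw C w ∈ Bd := by
  induction w with
  | nil => exact ⟨1, 0, fun j => by rw [Yw_nil]; simp⟩
  | cons a w ih =>
    obtain ⟨D, k, hD⟩ := ih
    have h0 : 0 ≤ D := by have := (abs_nonneg _).trans (hD 0); simpa using this
    refine ⟨|C (a :: w)| + D * 2 ^ k, k + 1, fun j => ?_⟩
    have hj : (1 : ℝ) ≤ (j : ℝ) + 1 := by linarith [Nat.cast_nonneg (α := ℝ) j]
    rw [Yw_cons]
    refine (abs_sub _ _).trans ?_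
    have h1 : |∑ n ∈ Finset.range j, (((n + 1 : ℕ) : ℝ) ^ (a : ℕ))⁻¹ * Yw C w (n + 1)| ≤
        ∑ _n ∈ Finset.range j, D * (2 * ((j : ℝ) + 1)) ^ k := by
      refine (Finset.abs_sum_le_sum_abs _ _).trans (Finset.sum_le_sum fun n hn => ?_)
      have hn := Finset.mem_range.1 hn
      have hn' : (n : ℝ) ≤ j := by exact_mod_cast hn.le
      rw [abs_mul, abs_of_nonneg (by positivity : (0 : ℝ) ≤ (((n + 1 : ℕ) : ℝ) ^ (a : ℕ))⁻¹)]
      have h2 : (((n + 1 : ℕ) : ℝ) ^ (a : ℕ))⁻¹ ≤ 1 := by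
        apply inv_le_one_of_one_le₀
        apply one_le_pow₀
        push_cast
        linarith [Nat.cast_nonneg (α := ℝ) n]
      calc (((n + 1 : ℕ) : ℝ) ^ (a : ℕ))⁻¹ * |Yw C w (n + 1)| ≤ 1 * |Yw C w (n + 1)| :=
            mul_le_mul_of_nonneg_right h2 (abs_nonneg _)
        _ ≤ D * (((n + 1 : ℕ) : ℝ) + 1) ^ k := by rw [one_mul]; exact hD (n + 1)
        _ ≤ D * (2 * ((j : ℝ) + 1)) ^ k := by
            refine mul_le_mul_of_nonneg_left (pow_le_pow_left₀ (by positivity) ?_ _) h0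
            push_cast
            linarith [Nat.cast_nonneg (α := ℝ) n]
    rw [Finset.sum_const, Finset.card_range, nsmul_eq_mul, mul_pow] at h1
    have h3 : (j : ℝ) * (D * (2 ^ k * ((j : ℝ) + 1) ^ k)) ≤ D * 2 ^ k * ((j : ℝ) + 1) ^ (k + 1) := by
      rw [pow_succ]
      have : 0 ≤ D * 2 ^ k * ((j : ℝ) + 1) ^ k := by positivity
      nlinarith
    have h4 : |C (a :: w)| ≤ |C (a :: w)| * ((j : ℝ) + 1) ^ (k + 1) :=
      le_mul_of_one_le_right (abs_nonneg _) (one_le_pow₀ hj)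
    rw [add_mul]
    linarith

/-- the classes of the words -/
noncomputable def yr (C : List ℕ+ → ℝ) (w : List ℕ+) : RR := Ideal.Quotient.mk II ⟨Yw C w, Yw_mem C w⟩

lemma yr_nil (C : List ℕ+ → ℝ) : yr C [] = 1 := by
  rw [yr, ← map_one (Ideal.Quotient.mk II)]
  congr 1

lemma yr_rec (C : List ℕ+ → ℝ) (a : ℕ+) (w : List ℕ+) :
    sg (yr C (a :: w)) - yr C (a :: w) = ph (fb a) * sg (yr C w) := by
  rw [yr, yr, sg_mk, sg_mk, ph, RingHom.comp_apply, ← map_sub, ← map_mul]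
  congr 1
  apply Subtype.ext
  funext j
  show Yw C (a :: w) (j + 1) - Yw C (a :: w) j =
    ((- (1 / ((1 + 1 * j + 0 : ℕ) : ℚ)) ^ (a : ℕ) : ℚ) : ℝ) * Yw C w (j + 1)
  rw [Yw_succ]
  push_cast
  rw [one_div, inv_pow, add_zero, one_mul, add_comm (1 : ℝ) (j : ℝ)]
  ring

lemma fb_mem (a : ℕ+) : ph (fb a) ∈ KK := by
  refine ⟨fb a, ?_, rfl⟩
  show ga (fb a) ∈ KN 1 le_rfl
  rw [ga_fb]
  exact (KN 1 le_rfl).neg_mem ((KN 1 le_rfl).sum_mem fun j _ => (KN 1 le_rfl).pow_mem (qj_mem 1 le_rfl j) _)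

lemma yr_step (C : List ℕ+ → ℝ) (w : List ℕ+) : sg (yr C w) - yr C w ∈ W KK (yr C) w.length := by
  induction w with
  | nil =>
    rw [yr_nil, map_one, sub_self]
    exact (W _ _ _).zero_mem
  | cons a w ih =>
    rw [yr_rec]
    refine mul_mem_W (fb_mem a) ?_
    have h1 := W_mono (K := KK) (y := yr C) (Nat.le_succ w.length) ih
    have h2 : yr C w ∈ W KK (yr C) (w.length + 1) := mem_W (Nat.lt_succ_self _)
    have h3 := (W _ _ _).add_mem h1 h2
    rwa [sub_add_cancel] at h3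

theorem hypR (C : List ℕ+ → ℝ) : Hyp KK (yr C) sg (fun a => ph (fb a)) kr where
  inv := by
    rintro _ ⟨b, hb, rfl⟩ hne
    have hb' : ga b ∈ KN 1 le_rfl := hb
    have h0 : ga b ≠ 0 := by
      intro h
      apply hne
      have h1 : ga b = ga 0 := by rw [h, map_zero]
      have h2 := ph_eq h1
      rw [map_zero] at h2
      exact h2
    obtain ⟨g, hg, hgb⟩ := (hyp 1 le_rfl).inv _ hb' h0
    obtain ⟨b', rfl⟩ := KN_surj hg
    refine ⟨ph b', ⟨b', hg, rfl⟩, ?_⟩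
    have h1 : ga (b * b') = ga 1 := by rw [map_mul, hgb, map_one]
    have h2 := ph_eq h1
    rw [map_mul, map_one] at h2
    exact h2
  nontriv := by
    intro h
    have h1 : ph 1 = 0 := by rw [map_one]; exact h
    have h2 : ga (1 : Bq) ∈ KN 1 le_rfl := by rw [map_one]; exact (KN 1 le_rfl).one_mem
    have h3 := zero_of h2 h1
    rw [map_one] at h3
    exact (hyp 1 le_rfl).nontriv h3
  stable := by
    rintro _ ⟨b, hb, rfl⟩
    have hb' : ga b ∈ KN 1 le_rfl := hb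
    refine ⟨shq b, ?_, (ph_shq b).symm ▸ rfl⟩
    show ga (shq b) ∈ KN 1 le_rfl
    rw [ga_shq]
    exact (hyp 1 le_rfl).stable _ hb'
  fK := fb_mem
  const := by
    rintro _ ⟨b, hb, rfl⟩ hx
    have hb' : ga b ∈ KN 1 le_rfl := hb
    have h1 : ph (shq b - b) = 0 := by rw [map_sub, ph_shq, sub_eq_zero]; exact hx
    have h2 : ga (shq b - b) ∈ KN 1 le_rfl := by
      rw [map_sub, ga_shq]
      exact (KN 1 le_rfl).sub_mem ((hyp 1 le_rfl).stable _ hb') hb'
    have h3 := zero_of h2 h1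
    rw [map_sub, ga_shq, sub_eq_zero] at h3
    obtain ⟨q, hq⟩ := (hyp 1 le_rfl).const _ hb' h3
    refine ⟨q, ?_⟩
    have h4 : ga b = ga (cst q) := by rw [hq, ga_cst]
    exact ph_eq h4
  nil := yr_nil C
  recu := by
    intro a w
    show sg (yr C (a :: w)) - yr C (a :: w) - ph (fb a) * yr C w ∈ _
    rw [yr_rec, ← mul_sub]
    exact mul_mem_W (fb_mem a) (yr_step C w)
  tel := by
    rintro A c ⟨a0, ha0, hca0⟩ _ ⟨b, hb, rfl⟩ hrel
    have hb' : ga b ∈ KN 1 le_rfl := hb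
    have h1 : ph (shq b - b - ∑ a ∈ A, cst (c a) * fb a) = 0 := by
      rw [map_sub, map_sub, map_sum, ph_shq, sub_eq_zero]
      refine hrel.trans (Finset.sum_congr rfl fun a _ => ?_)
      rw [map_mul]
      rfl
    have h2 : ga (shq b - b - ∑ a ∈ A, cst (c a) * fb a) ∈ KN 1 le_rfl := by
      rw [map_sub, map_sub, map_sum, ga_shq]
      refine (KN 1 le_rfl).sub_mem ((KN 1 le_rfl).sub_mem ((hyp 1 le_rfl).stable _ hb') hb') ?_
      refine (KN 1 le_rfl).sum_mem fun a _ => ?_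
      rw [map_mul, ga_cst, ga_fb]
      refine (KN 1 le_rfl).mul_mem ?_ ((KN 1 le_rfl).neg_mem ((hyp 1 le_rfl).fK a))
      refine ⟨Polynomial.C (c a).num, Polynomial.C ((c a).den : ℤ), ?_, ?_⟩
      · rw [Ne, Polynomial.C_eq_zero]
        exact_mod_cast (c a).den_nz
      · rw [kq_apply]
        congr 1
        funext m
        simp [Pool.Agent.TH507.HS.ev, Rat.num_div_den]
    have h3 := zero_of h2 h1
    rw [map_sub, map_sub, map_sum, ga_shq, sub_eq_zero] at h3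
    refine (hyp 1 le_rfl).tel A (fun a => - c a) ⟨a0, ha0, neg_ne_zero.2 hca0⟩ (ga b) hb' ?_
    rw [h3]
    refine Finset.sum_congr rfl fun a _ => ?_
    rw [map_mul, ga_cst, ga_fb, map_neg]
    ring

/-- **independence over the rational numbers modulo rapidly decreasing functions** -/
theorem indep_II (C : List ℕ+ → ℝ) (U : Finset (List ℕ+)) (c : List ℕ+ → ℚ)
    (h : ∀ k : ℕ, (fun j => ∑ w ∈ U, (c w : ℝ) * Yw C w j) =O[atTop] fun j : ℕ => ((j : ℝ)⁻¹) ^ k) :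
    ∀ w ∈ U, c w = 0 := by
  obtain ⟨t, ht⟩ : ∃ t, ∀ w ∈ U, w.length < t := by
    refine ⟨∑ w ∈ U, w.length + 1, fun w hw => ?_⟩
    have := Finset.single_le_sum (f := fun w : List ℕ+ => w.length) (fun _ _ => Nat.zero_le _) hw
    omega
  have hK : ∀ q : ℚ, ga (cst q) ∈ KN 1 le_rfl := by
    intro q
    rw [ga_cst]
    refine ⟨Polynomial.C q.num, Polynomial.C (q.den : ℤ), ?_, ?_⟩
    · rw [Ne, Polynomial.C_eq_zero]
      exact_mod_cast q.den_nz
    · rw [kq_apply]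
      congr 1
      funext m
      simp [Pool.Agent.TH507.HS.ev, Rat.num_div_den]
  have h1 := (hypR C).indep t U (fun w => kr (c w)) ht (fun w => ⟨cst (c w), hK _, rfl⟩) ?_
  · intro w hw
    have h2 := h1 w hw
    have h3 := zero_of (hK (c w)) h2
    rw [ga_cst, kq_apply, ← gr_zero, gr_eq] at h3
    obtain ⟨m, hm⟩ := h3.exists
    exact hm
  · have h2 : ∑ w ∈ U, kr (c w) * yr C w =
        Ideal.Quotient.mk II (∑ w ∈ U, castR (cst (c w)) * ⟨Yw C w, Yw_mem C w⟩) := by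
      rw [map_sum]
      refine Finset.sum_congr rfl fun w _ => ?_
      rw [map_mul]
      rfl
    rw [h2, Ideal.Quotient.eq_zero_iff_mem, mem_II]
    intro k
    refine (h k).congr_left fun j => ?_
    rw [AddSubmonoidClass.coe_finsetSum, Finset.sum_apply]
    rfl

end Pool.Agent.K9h52.CS
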