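import Mathlib
import Pool.Agent.K9h52.CS.Exp
import Pool.Agent.Q217.TT.Sums

/-!
# The tails of a multiple zeta value
-/

set_option autoImplicit false

namespace Pool.Agent.K9h52.CS

open Filter Asymptotics Topology Polynomial
open Pool.Agent.H447R2.MZ (H H_nil H_cons H_cons_zero H_cons_succ H_nonneg Adm val tendsto_H H_le_val)
open Pool.Agent.Q217.TT (ep ep_nil ep_self ep_nonneg ep_succ ep_left ep_anti ep_mono H_app)

lemma ep_cons (s : ℕ) (p : List ℕ) (M N : ℕ) :
    ep (s :: p) M N = ∑ n ∈ Finset.Ico M N, (((n + 1 : ℕ) : ℝ) ^ s)⁻¹ * ep p M n := by rw [ep]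

lemma ep_monotone (u : List ℕ) (j : ℕ) : Monotone (ep u j) := by
  cases u with
  | nil => intro a b _; rw [ep_nil, ep_nil]
  | cons s p =>
    intro a b hab
    rw [ep_cons, ep_cons]
    exact Finset.sum_le_sum_of_subset_of_nonneg (Finset.Ico_subset_Ico_right hab)
      fun n _ _ => mul_nonneg (by positivity) (ep_nonneg _ _ _)

lemma ep_zero (u : List ℕ) (N : ℕ) : ep u 0 N = H u N := by
  induction u generalizing N with
  | nil => rw [ep_nil, H_nil]
  | cons s p ih =>
    rw [ep_cons, H_cons, Nat.Ico_zero_eq_range]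
    exact Finset.sum_congr rfl fun n _ => by rw [ih]

lemma ep_le_H (u : List ℕ) (j N : ℕ) : ep u j N ≤ H u N := by
  induction u generalizing N with
  | nil => rw [ep_nil, H_nil]
  | cons s p ih =>
    rw [ep_cons, H_cons]
    refine le_trans (Finset.sum_le_sum fun n _ => mul_le_mul_of_nonneg_left (ih n) (by positivity)) ?_
    refine Finset.sum_le_sum_of_subset_of_nonneg ?_ fun n _ _ => mul_nonneg (by positivity) (H_nonneg _ _)
    intro n hn
    exact Finset.mem_range.2 (Finset.mem_Ico.1 hn).2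

lemma ep_le_sub (s : ℕ) (p : List ℕ) {j N : ℕ} (h : j ≤ N) : ep (s :: p) j N ≤ H (s :: p) N - H (s :: p) j := by
  rw [ep_cons, H_cons, H_cons, ← Finset.sum_Ico_eq_sub _ h]
  exact Finset.sum_le_sum fun n _ => mul_le_mul_of_nonneg_left (ep_le_H p j n) (by positivity)

/-- the tail: `∑ ∏ n_i ^ (- u_i)` over `n_1 > ... > n_r > j` -/
noncomputable def T (u : List ℕ) (j : ℕ) : ℝ := ⨆ N, ep u j N

lemma tendsto_T {u : List ℕ} (hu : Adm u) (j : ℕ) : Tendsto (ep u j) atTop (𝓝 (T u j)) :=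
  tendsto_atTop_ciSup (ep_monotone u j) ⟨val u, by
    rintro _ ⟨N, rfl⟩
    exact (ep_le_H u j N).trans (H_le_val u hu N)⟩

lemma ep_le_T {u : List ℕ} (hu : Adm u) (j N : ℕ) : ep u j N ≤ T u j :=
  (ep_monotone u j).ge_of_tendsto (tendsto_T hu j) N

lemma T_nil (j : ℕ) : T [] j = 1 := by
  rw [T]
  simp only [ep_nil]
  exact ciSup_const

lemma T_nonneg {u : List ℕ} (hu : Adm u) (j : ℕ) : 0 ≤ T u j :=
  (ep_nonneg u j 0).trans (ep_le_T hu j 0)

lemma adm_left {u v : List ℕ} (h : Adm (u ++ v)) : Adm u := by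
  refine ⟨fun a ha => h.1 a (List.mem_append_left _ ha), fun a t hat => ?_⟩
  exact h.2 a (t ++ v) (by rw [hat, List.cons_append])

lemma T_rec {u : List ℕ} {s : ℕ} (hu : Adm (u ++ [s])) (j : ℕ) :
    T (u ++ [s]) j - T (u ++ [s]) (j + 1) = (((j + 1 : ℕ) : ℝ) ^ s)⁻¹ * T u (j + 1) := by
  have h1 := tendsto_T hu j
  have h2 := tendsto_T hu (j + 1)
  have h3 := (tendsto_T (adm_left hu) (j + 1)).const_mul ((((j + 1 : ℕ) : ℝ) ^ s)⁻¹)
  have h4 := h2.add h3
  have h5 : T (u ++ [s]) j = T (u ++ [s]) (j + 1) + (((j + 1 : ℕ) : ℝ) ^ s)⁻¹ * T u (j + 1) := by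
    refine tendsto_nhds_unique h1 (h4.congr' ?_)
    filter_upwards [eventually_ge_atTop (j + 1)] with N hN
    exact (ep_left u s hN).symm
  rw [h5]
  ring

lemma T_le (s : ℕ) (v : List ℕ) (h : Adm (s :: v)) (j : ℕ) : T (s :: v) j ≤ val (s :: v) - H (s :: v) j := by
  refine le_of_tendsto (tendsto_T h j) ?_
  filter_upwards [eventually_ge_atTop j] with N hN
  exact (ep_le_sub s v hN).trans (sub_le_sub_right (H_le_val _ h N) _)

lemma T_tendsto {u : List ℕ} (hu : Adm u) (h0 : u ≠ []) : Tendsto (T u) atTop (𝓝 0) := by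
  obtain ⟨s, v, rfl⟩ := List.exists_cons_of_ne_nil h0
  have h1 : Tendsto (fun j => val (s :: v) - H (s :: v) j) atTop (𝓝 (val (s :: v) - val (s :: v))) :=
    tendsto_const_nhds.sub (tendsto_H _ hu)
  rw [sub_self] at h1
  exact squeeze_zero (fun j => T_nonneg hu j) (fun j => T_le s v hu j) h1

/-- **the tails have expansions with rational coefficients** -/
lemma T_exp (u : List ℕ) : Adm u → ∀ K, ∃ P : ℚ[X], EXP K (T u) P := by
  induction u using List.reverseRecOn with
  | nil =>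
    intro _ K
    refine ⟨1, ?_⟩
    have h := EXP.self K (1 : ℚ[X])
    rw [EXP] at h ⊢
    refine h.congr_left fun j => ?_
    rw [T_nil, map_one]
  | append_singleton v s ih =>
    intro hu K
    have hv := adm_left hu
    suffices hs : ∃ R : ℚ[X], EXP (K + 1 + 1) (fun n => ((n : ℝ) ^ s)⁻¹ * T v n) (X ^ 2 * R) by
      obtain ⟨R, hR⟩ := hs
      obtain ⟨P, hP⟩ := tail_exp (K := K + 1) (by omega) (T_tendsto hu (by simp)) (T_rec hu) hR
      exact ⟨P, hP.mono (Nat.le_succ K)⟩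
    obtain ⟨P, hP⟩ := ih hv (K + 1 + 1)
    have h1 := (EXP.self (K + 1 + 1) ((X : ℚ[X]) ^ s)).mul hP
    have h2 : EXP (K + 1 + 1) (fun n => ((n : ℝ) ^ s)⁻¹ * T v n) (X ^ s * P) := by
      rw [EXP] at h1 ⊢
      refine h1.congr_left fun j => ?_
      rw [map_pow, aeval_X, inv_pow]
    rcases List.eq_nil_or_concat v with rfl | ⟨v', t, hv'⟩
    · have hs2 : 2 ≤ s := hu.2 s [] rfl
      obtain ⟨s', rfl⟩ : ∃ s', s = s' + 2 := ⟨s - 2, by omega⟩
      refine ⟨X ^ s' * P, ?_⟩
      rw [show (X : ℚ[X]) ^ 2 * (X ^ s' * P) = X ^ (s' + 2) * P by ring]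
      exact h2
    · have hs1 : 1 ≤ s := hu.1 s (by simp)
      obtain ⟨s', rfl⟩ : ∃ s', s = s' + 1 := ⟨s - 1, by omega⟩
      have hv0 : v ≠ [] := by rw [hv', List.concat_eq_append]; simp
      have h3 : P.coeff 0 = 0 := by
        have h4 : Tendsto (fun j : ℕ => T v j - aeval ((j : ℝ)⁻¹) P) atTop (𝓝 0) := by
          refine IsBigO.trans_tendsto (hP.mono (by omega : 1 ≤ K + 1 + 1)) ?_
          simpa using tendsto_inv_atTop_nhds_zero_nat (𝕜 := ℝ)
        have h5 := (T_tendsto hv hv0).sub h4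
        have h6 : (fun j : ℕ => T v j - (T v j - aeval ((j : ℝ)⁻¹) P)) = fun j : ℕ => aeval ((j : ℝ)⁻¹) P := by
          funext j; ring
        rw [h6, sub_zero] at h5
        have h7 := tendsto_nhds_unique h5 (aeval_tendsto P)
        exact_mod_cast h7.symm
      refine ⟨X ^ s' * P.divX, ?_⟩
      have h4 : X * P.divX = P := by
        have := X_mul_divX_add P
        rw [h3, C_0, add_zero] at this
        exact this
      rw [show (X : ℚ[X]) ^ 2 * (X ^ s' * P.divX) = X ^ (s' + 1) * (X * P.divX) by ring, h4]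
      exact h2

/-- the value of `u s p` as a sum with weights `T u` -/
lemma val_app (u : List ℕ) (s : ℕ) (p : List ℕ) (h : Adm (u ++ s :: p)) :
    Tendsto (fun N => ∑ n ∈ Finset.range N, H p n * (((n + 1 : ℕ) : ℝ) ^ s)⁻¹ * T u (n + 1)) atTop
      (𝓝 (val (u ++ s :: p))) := by
  have hu : Adm u := adm_left h
  refine tendsto_of_tendsto_of_tendsto_of_le_of_le (tendsto_H _ h) tendsto_const_nhds ?_ ?_
  · intro N
    simp only
    rw [H_app]
    exact Finset.sum_le_sum fun n _ => mul_le_mul_of_nonneg_left (ep_le_T hu _ _)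
      (mul_nonneg (H_nonneg _ _) (by positivity))
  · intro N
    have h1 : Tendsto (fun N' => ∑ n ∈ Finset.range N, H p n * (((n + 1 : ℕ) : ℝ) ^ s)⁻¹ * ep u (n + 1) N') atTop
        (𝓝 (∑ n ∈ Finset.range N, H p n * (((n + 1 : ℕ) : ℝ) ^ s)⁻¹ * T u (n + 1))) :=
      tendsto_finsetSum _ fun n _ => (tendsto_T hu (n + 1)).const_mul _
    refine le_of_tendsto h1 ?_
    filter_upwards [eventually_ge_atTop N] with N' hN'
    refine le_trans ?_ (H_le_val _ h N')
    rw [H_app]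
    exact Finset.sum_le_sum_of_subset_of_nonneg (Finset.range_subset_range.2 hN')
      fun n _ _ => mul_nonneg (mul_nonneg (H_nonneg _ _) (by positivity)) (ep_nonneg _ _ _)

end Pool.Agent.K9h52.CS
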