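import Mathlib
import Pool.Agent.K9h52.CS.Tail
import Pool.Agent.K9h52.CS.Ring

/-!
# Linear forms in the `ζ(u p)`, `u ∈ U`, `p` long
-/

set_option autoImplicit false

namespace Pool.Agent.K9h52.CS

open Filter Asymptotics Topology Polynomial
open Pool.Agent.H447R2.MZ (H H_nil H_cons H_cons_zero H_cons_succ H_nonneg Adm val tendsto_H H_le_val)

/-- the list of natural numbers of a list of positive integers -/
def toN (u : List ℕ+) : List ℕ := List.map (fun x : ℕ+ => (x : ℕ)) u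

lemma toN_append (u v : List ℕ+) : toN (u ++ v) = toN u ++ toN v := by rw [toN, List.map_append]; rfl

lemma toN_cons (a : ℕ+) (v : List ℕ+) : toN (a :: v) = (a : ℕ) :: toN v := by rw [toN, List.map_cons]; rfl

/-- the constants -/
noncomputable def CC (w : List ℕ+) : ℝ := T (toN w.reverse) 0

lemma Yw_eq (w : List ℕ+) : Adm (toN w.reverse) → ∀ j, Yw CC w j = T (toN w.reverse) j := by
  induction w with
  | nil =>
    intro _ j
    rw [Yw_nil, List.reverse_nil]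
    exact (T_nil j).symm
  | cons a w ih =>
    intro h j
    have h1 : toN (a :: w).reverse = toN w.reverse ++ [(a : ℕ)] := by
      rw [List.reverse_cons, toN_append]
      rfl
    rw [h1] at h
    have h2 := ih (adm_left h)
    induction j with
    | zero =>
      rw [Yw_cons, Finset.range_zero, Finset.sum_empty, sub_zero]
      rfl
    | succ j ihj =>
      rw [Yw_succ, ihj, h2, h1]
      have h3 := T_rec h j
      linarith

/-- a finite order decides -/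
lemma order (U : Finset (List ℕ+)) (hU : ∀ u ∈ U, Adm (toN u)) : ∃ K : ℕ, 1 ≤ K ∧ ∀ c : List ℕ+ → ℚ,
    ((fun j => ∑ u ∈ U, (c u : ℝ) * T (toN u) j) =O[atTop] fun j : ℕ => ((j : ℝ)⁻¹) ^ K) → ∀ u ∈ U, c u = 0 := by
  classical
  let N : ℕ → Submodule ℚ (U → ℚ) := fun K =>
    { carrier := {c | (fun j => ∑ u : U, (c u : ℝ) * T (toN u.1) j) =O[atTop] fun j : ℕ => ((j : ℝ)⁻¹) ^ K}
      zero_mem' := by
        show (fun j => ∑ u : U, (((0 : U → ℚ) u : ℚ) : ℝ) * T (toN u.1) j) =O[atTop] fun j : ℕ => ((j : ℝ)⁻¹) ^ K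
        refine (isBigO_zero _ _).congr_left fun j => ?_
        symm
        exact Finset.sum_eq_zero fun u _ => by rw [Pi.zero_apply, Rat.cast_zero, zero_mul]
      add_mem' := by
        intro a b ha hb
        refine (IsBigO.add ha hb).congr_left fun j => ?_
        rw [← Finset.sum_add_distrib]
        refine Finset.sum_congr rfl fun u _ => ?_
        rw [Pi.add_apply, Rat.cast_add]
        ring
      smul_mem' := by
        intro q a ha
        refine (IsBigO.const_mul_left ha (q : ℝ)).congr_left fun j => ?_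
        rw [Finset.mul_sum]
        refine Finset.sum_congr rfl fun u _ => ?_
        rw [Pi.smul_apply, smul_eq_mul, Rat.cast_mul]
        ring }
  let F : ℕ →o (Submodule ℚ (U → ℚ))ᵒᵈ :=
    ⟨fun K => OrderDual.toDual (N K), fun a b hab c hc => IsBigO.trans hc (pow_O hab)⟩
  obtain ⟨M, hM⟩ := IsArtinian.monotone_stabilizes F
  refine ⟨M + 1, by omega, fun c hc => ?_⟩
  have h1 : (fun u : U => c u.1) ∈ N (M + 1) := by
    refine IsBigO.congr_left hc fun j => ?_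
    rw [← Finset.sum_coe_sort U]
  have hall : ∀ k : ℕ, (fun j => ∑ u ∈ U, (c u : ℝ) * T (toN u) j) =O[atTop] fun j : ℕ => ((j : ℝ)⁻¹) ^ k := by
    intro k
    have h2 : N (M + 1) = N M := (hM (M + 1) (by omega)).symm
    have h3 : N M = N (max M k) := hM (max M k) (le_max_left _ _)
    rw [h2, h3] at h1
    have h4 : (fun j => ∑ u : U, (((fun u : U => c u.1) u : ℚ) : ℝ) * T (toN u.1) j) =O[atTop]
        fun j : ℕ => ((j : ℝ)⁻¹) ^ (max M k) := h1
    refine (h4.trans (pow_O (le_max_right M k))).congr_left fun j => ?_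
    rw [← Finset.sum_coe_sort U]
  -- independence
  have h5 := indep_II CC (U.image List.reverse) (fun w => c w.reverse) ?_
  · intro u hu
    have := h5 u.reverse (Finset.mem_image_of_mem _ hu)
    simpa using this
  · intro k
    refine (hall k).congr_left fun j => ?_
    rw [Finset.sum_image (fun a _ b _ hab => List.reverse_injective hab)]
    refine Finset.sum_congr rfl fun u hu => ?_
    rw [Yw_eq u.reverse (by rw [List.reverse_reverse]; exact hU u hu), List.reverse_reverse]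

/-- the data of the expansions -/
lemma data (U : Finset (List ℕ+)) (hU : ∀ u ∈ U, Adm (toN u)) : ∃ (K : ℕ) (P : List ℕ+ → ℚ[X]), 1 ≤ K ∧
    (∀ u ∈ U, EXP K (T (toN u)) (P u)) ∧
    (∀ c : List ℕ+ → ℚ, (∀ k < K, ∑ u ∈ U, c u * (P u).coeff k = 0) → ∀ u ∈ U, c u = 0) := by
  classical
  obtain ⟨K, hK, h⟩ := order U hU
  have h1 : ∀ u : List ℕ+, ∃ P : ℚ[X], u ∈ U → EXP K (T (toN u)) P := by
    intro u
    by_cases hu : u ∈ U
    · obtain ⟨P, hP⟩ := T_exp (toN u) (hU u hu) K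
      exact ⟨P, fun _ => hP⟩
    · exact ⟨0, fun h => absurd h hu⟩
  choose P hP using h1
  refine ⟨K, P, hK, hP, fun c hc => h c ?_⟩
  -- the combination is small
  have h2 : (fun j => ∑ u ∈ U, (c u : ℝ) * (T (toN u) j - aeval ((j : ℝ)⁻¹) (P u))) =O[atTop]
      fun j : ℕ => ((j : ℝ)⁻¹) ^ K :=
    (IsBigO.sum fun u hu => IsBigO.const_mul_left (hP u hu) (c u : ℝ)).congr_left fun j => by
      rw [Finset.sum_apply]
  have h3 : ∃ R : ℚ[X], ∑ u ∈ U, C (c u) * P u = X ^ K * R := by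
    have : X ^ K ∣ ∑ u ∈ U, C (c u) * P u := by
      rw [X_pow_dvd_iff]
      intro d hd
      rw [finsetSum_coeff]
      simp only [coeff_C_mul]
      exact hc d hd
    exact this
  obtain ⟨R, hR⟩ := h3
  have h4 : (fun j : ℕ => aeval ((j : ℝ)⁻¹) (∑ u ∈ U, C (c u) * P u)) =O[atTop] fun j : ℕ => ((j : ℝ)⁻¹) ^ K := by
    have h5 := (isBigO_refl (fun n : ℕ => ((n : ℝ)⁻¹) ^ K) atTop).mul (aeval_O R)
    simp only [mul_one] at h5
    refine h5.congr_left fun j => ?_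
    rw [hR, map_mul, map_pow, aeval_X]
  refine (h2.add h4).congr_left fun j => ?_
  rw [map_sum, ← Finset.sum_add_distrib]
  refine Finset.sum_congr rfl fun u _ => ?_
  rw [map_mul, aeval_C]
  have : algebraMap ℚ ℝ (c u) = (c u : ℝ) := rfl
  rw [this]
  ring

/-- rational independence implies real independence -/
lemma real_of_rat (U : Finset (List ℕ+)) (K : ℕ) (a : List ℕ+ → ℕ → ℚ)
    (h : ∀ c : List ℕ+ → ℚ, (∀ k < K, ∑ u ∈ U, c u * a u k = 0) → ∀ u ∈ U, c u = 0)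
    (c : List ℕ+ → ℝ) (hc : ∀ k < K, ∑ u ∈ U, c u * (a u k : ℝ) = 0) : ∀ u ∈ U, c u = 0 := by
  classical
  let A : Matrix (Fin K) U ℚ := Matrix.of fun k u => a u.1 k.1
  have hinj : LinearMap.ker (Matrix.toLin' A) = ⊥ := by
    rw [LinearMap.ker_eq_bot']
    intro v hv
    have h1 := h (fun u => if hu : u ∈ U then v ⟨u, hu⟩ else 0) ?_
    · funext u
      have := h1 u.1 u.2
      simpa [u.2] using this
    · intro k hk
      have h2 := congrFun hv ⟨k, hk⟩
      rw [Matrix.toLin'_apply, Matrix.mulVec, dotProduct] at h2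
      rw [← Finset.sum_coe_sort U]
      simp only [Matrix.of_apply, Pi.zero_apply, A] at h2
      rw [← h2]
      refine Finset.sum_congr rfl fun u _ => ?_
      simp [u.2, mul_comm]
  obtain ⟨g, hg⟩ := LinearMap.exists_leftInverse_of_injective _ hinj
  set B : Matrix U (Fin K) ℚ := LinearMap.toMatrix' g with hB
  have hBA : B * A = 1 := by
    rw [hB, ← LinearMap.toMatrix'_toLin' A, ← LinearMap.toMatrix'_comp]
    rw [hg, LinearMap.toMatrix'_id]
  have hBA' : (B.map (fun q : ℚ => (q : ℝ))) * (A.map (fun q : ℚ => (q : ℝ))) = 1 := by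
    have h1 := congrArg (fun M : Matrix U U ℚ => M.map (Rat.castHom ℝ)) hBA
    simp only [Matrix.map_mul] at h1
    rw [Matrix.map_one _ (map_zero _) (map_one _)] at h1
    exact h1
  have hAc : (A.map (fun q : ℚ => (q : ℝ))).mulVec (fun u : U => c u.1) = 0 := by
    funext k
    rw [Matrix.mulVec, dotProduct]
    have h2 := hc k.1 k.2
    rw [← Finset.sum_coe_sort U] at h2
    rw [Pi.zero_apply, ← h2]
    refine Finset.sum_congr rfl fun u _ => ?_
    simp [A, mul_comm]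
  have h3 : (fun u : U => c u.1) = 0 := by
    have h4 : ((B.map (fun q : ℚ => (q : ℝ))) * (A.map (fun q : ℚ => (q : ℝ)))).mulVec (fun u : U => c u.1) = 0 := by
      rw [← Matrix.mulVec_mulVec, hAc, Matrix.mulVec_zero]
    rwa [hBA', Matrix.one_mulVec] at h4
  intro u hu
  exact congrFun h3 ⟨u, hu⟩

/-- the leading term decides -/
lemma leading (U : Finset (List ℕ+)) (K : ℕ) (P : List ℕ+ → ℚ[X])
    (hP : ∀ u ∈ U, EXP K (T (toN u)) (P u)) : ∃ (J : ℕ) (B : ℝ), 1 ≤ J ∧ 0 < B ∧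
    ∀ (c : List ℕ+ → ℝ) (m : ℝ), (∀ u ∈ U, |c u| ≤ m) → 0 ≤ m → ∀ D < K,
      (∀ k < D, ∑ u ∈ U, c u * ((P u).coeff k : ℝ) = 0) → ∀ j : ℕ, J ≤ j →
      |∑ u ∈ U, c u * T (toN u) j - (∑ u ∈ U, c u * ((P u).coeff D : ℝ)) * ((j : ℝ)⁻¹) ^ D| ≤
        m * B * ((j : ℝ)⁻¹) ^ (D + 1) := by
  classical
  -- uniform constants
  have h1 : ∀ u : List ℕ+, ∃ (J : ℕ) (E : ℝ), 0 ≤ E ∧ (u ∈ U → ∀ j : ℕ, J ≤ j →
      |T (toN u) j - aeval ((j : ℝ)⁻¹) (P u)| ≤ E * ((j : ℝ)⁻¹) ^ K) := by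
    intro u
    by_cases hu : u ∈ U
    · obtain ⟨E, hE⟩ := (hP u hu).bound
      rw [eventually_atTop] at hE
      obtain ⟨J, hJ⟩ := hE
      refine ⟨J, |E|, abs_nonneg _, fun _ j hj => ?_⟩
      have h2 := hJ j hj
      rw [Real.norm_eq_abs, Real.norm_of_nonneg (pow_nonneg (inv_nn j) _)] at h2
      exact h2.trans (mul_le_mul_of_nonneg_right (le_abs_self E) (pow_nonneg (inv_nn j) _))
    · exact ⟨0, 0, le_rfl, fun h => absurd h hu⟩
  choose J E hE0 hE using h1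
  set N : ℕ := ∑ u ∈ U, ((P u).natDegree + 1) + K with hN
  refine ⟨∑ u ∈ U, J u + 1, ∑ u ∈ U, E u + ∑ u ∈ U, ∑ k ∈ Finset.range N, |((P u).coeff k : ℝ)| + 1,
    by omega, ?_, ?_⟩
  · have h2 : 0 ≤ ∑ u ∈ U, E u := Finset.sum_nonneg fun u _ => hE0 u
    have h3 : 0 ≤ ∑ u ∈ U, ∑ k ∈ Finset.range N, |((P u).coeff k : ℝ)| :=
      Finset.sum_nonneg fun u _ => Finset.sum_nonneg fun k _ => abs_nonneg _
    linarith
  intro c m hcm hm D hDK hlow j hj
  have hj1 : 1 ≤ j := by omega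
  set x : ℝ := (j : ℝ)⁻¹ with hx
  have hx0 : 0 ≤ x := inv_nn j
  have hx1 : x ≤ 1 := inv_le_one
  have hjJ : ∀ u ∈ U, J u ≤ j := fun u hu => by
    have := Finset.single_le_sum (f := J) (fun _ _ => Nat.zero_le _) hu
    omega
  have hev : ∀ u ∈ U, aeval x (P u) = ∑ k ∈ Finset.range N, ((P u).coeff k : ℝ) * x ^ k := by
    intro u hu
    have h2 : (P u).natDegree < N := by
      have := Finset.single_le_sum (f := fun u => (P u).natDegree + 1) (fun _ _ => Nat.zero_le _) hu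
      omega
    rw [aeval_eq_sum_range' h2]
    refine Finset.sum_congr rfl fun k _ => ?_
    rw [Algebra.smul_def]
    rfl
  have hDN : D ∈ Finset.range N := Finset.mem_range.2 (by omega)
  have e1 : ∑ u ∈ U, c u * T (toN u) j - (∑ u ∈ U, c u * ((P u).coeff D : ℝ)) * x ^ D =
      ∑ u ∈ U, c u * (T (toN u) j - aeval x (P u)) +
        ∑ k ∈ (Finset.range N).erase D, (∑ u ∈ U, c u * ((P u).coeff k : ℝ)) * x ^ k := by
    have e2 : ∑ u ∈ U, c u * aeval x (P u) =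
        ∑ k ∈ Finset.range N, (∑ u ∈ U, c u * ((P u).coeff k : ℝ)) * x ^ k := by
      rw [Finset.sum_congr rfl fun u hu => by rw [hev u hu, Finset.mul_sum], Finset.sum_comm]
      refine Finset.sum_congr rfl fun k _ => ?_
      rw [Finset.sum_mul]
      exact Finset.sum_congr rfl fun u _ => by ring
    rw [← Finset.add_sum_erase _ _ hDN] at e2
    simp only [mul_sub, Finset.sum_sub_distrib]
    rw [e2]
    ring
  rw [e1]
  refine (abs_add_le _ _).trans ?_
  have h2 : |∑ u ∈ U, c u * (T (toN u) j - aeval x (P u))| ≤ m * (∑ u ∈ U, E u) * x ^ (D + 1) := by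
    refine (Finset.abs_sum_le_sum_abs _ _).trans ?_
    rw [mul_assoc, Finset.sum_mul, Finset.mul_sum]
    refine Finset.sum_le_sum fun u hu => ?_
    rw [abs_mul]
    refine mul_le_mul (hcm u hu) ?_ (abs_nonneg _) hm
    refine (hE u hu j (hjJ u hu)).trans (mul_le_mul_of_nonneg_left ?_ (hE0 u))
    exact pow_le_pow_of_le_one hx0 hx1 hDK
  have h3 : |∑ k ∈ (Finset.range N).erase D, (∑ u ∈ U, c u * ((P u).coeff k : ℝ)) * x ^ k| ≤
      m * (∑ u ∈ U, ∑ k ∈ Finset.range N, |((P u).coeff k : ℝ)|) * x ^ (D + 1) := by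
    refine (Finset.abs_sum_le_sum_abs _ _).trans ?_
    rw [Finset.sum_comm, mul_assoc, Finset.sum_mul, Finset.mul_sum]
    refine le_trans (Finset.sum_le_sum (g := fun k => m * ((∑ u ∈ U, |((P u).coeff k : ℝ)|) * x ^ (D + 1)))
      fun k hk => ?_) (Finset.sum_le_sum_of_subset_of_nonneg (Finset.erase_subset _ _) fun k _ _ => ?_)
    · obtain ⟨hkD, _⟩ := Finset.mem_erase.1 hk
      rcases lt_or_gt_of_ne hkD with h | h
      · rw [hlow k h, zero_mul, abs_zero]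
        exact mul_nonneg hm (mul_nonneg (Finset.sum_nonneg fun _ _ => abs_nonneg _) (pow_nonneg hx0 _))
      · rw [abs_mul, abs_of_nonneg (pow_nonneg hx0 k), ← mul_assoc]
        refine mul_le_mul ?_ (pow_le_pow_of_le_one hx0 hx1 h) (pow_nonneg hx0 _)
          (mul_nonneg hm (Finset.sum_nonneg fun _ _ => abs_nonneg _))
        refine (Finset.abs_sum_le_sum_abs _ _).trans ?_
        rw [Finset.mul_sum]
        refine Finset.sum_le_sum fun u hu => ?_
        rw [abs_mul]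
        exact mul_le_mul_of_nonneg_right (hcm u hu) (abs_nonneg _)
    · exact mul_nonneg hm (mul_nonneg (Finset.sum_nonneg fun _ _ => abs_nonneg _) (pow_nonneg hx0 _))
  have h4 : 0 ≤ m * x ^ (D + 1) := mul_nonneg hm (pow_nonneg hx0 _)
  calc _ ≤ m * (∑ u ∈ U, E u) * x ^ (D + 1) +
        m * (∑ u ∈ U, ∑ k ∈ Finset.range N, |((P u).coeff k : ℝ)|) * x ^ (D + 1) := add_le_add h2 h3
    _ ≤ _ := by nlinarith

/-- sign constancy -/
lemma sign_const (U : Finset (List ℕ+)) (K : ℕ) (P : List ℕ+ → ℚ[X])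
    (hP : ∀ u ∈ U, EXP K (T (toN u)) (P u)) : ∃ (J : ℕ) (B : ℝ), 1 ≤ J ∧ 0 < B ∧
    ∀ (c : List ℕ+ → ℝ) (m : ℝ), (∀ u ∈ U, |c u| ≤ m) → 0 ≤ m → ∀ D < K,
      (∀ k < D, ∑ u ∈ U, c u * ((P u).coeff k : ℝ) = 0) → ∀ δ : ℝ, 0 < δ →
      δ ≤ |∑ u ∈ U, c u * ((P u).coeff D : ℝ)| →
      ∃ ε : ℝ, |ε| = 1 ∧ ∀ j : ℕ, J ≤ j → m * B ≤ δ * j →
        δ / 2 * ((j : ℝ)⁻¹) ^ K ≤ ε * ∑ u ∈ U, c u * T (toN u) j := by
  obtain ⟨J, B, hJ, hB, h⟩ := leading U K P hP
  refine ⟨J, 2 * B, hJ, by positivity, fun c m hcm hm D hD hlow δ hδ hlead => ?_⟩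
  set L : ℝ := ∑ u ∈ U, c u * ((P u).coeff D : ℝ) with hL
  obtain ⟨ε, hε, hεL⟩ : ∃ ε : ℝ, |ε| = 1 ∧ ε * L = |L| := by
    rcases le_or_gt 0 L with h | h
    · exact ⟨1, abs_one, by rw [one_mul, abs_of_nonneg h]⟩
    · exact ⟨-1, by rw [abs_neg, abs_one], by rw [abs_of_neg h]; ring⟩
  refine ⟨ε, hε, fun j hj hmj => ?_⟩
  have h1 := h c m hcm hm D hD hlow j hj
  rw [← hL] at h1
  have hj1 : 1 ≤ j := by omega
  have hj0 : (0 : ℝ) < j := by exact_mod_cast hj1
  set x : ℝ := (j : ℝ)⁻¹ with hx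
  have hx0 : 0 < x := by positivity
  set F : ℝ := ∑ u ∈ U, c u * T (toN u) j with hF
  have h2 : |ε * F - ε * L * x ^ D| ≤ m * B * x ^ (D + 1) := by
    have e : ε * F - ε * L * x ^ D = ε * (F - L * x ^ D) := by ring
    rw [e, abs_mul, hε, one_mul]
    exact h1
  have h3 := (abs_le.1 h2).1
  rw [hεL] at h3
  have h4 : m * B * x ^ (D + 1) ≤ δ / 2 * x ^ D := by
    have h5 : m * B * x ≤ δ / 2 := by
      rw [hx, ← div_eq_mul_inv, div_le_iff₀ hj0]
      linarith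
    calc m * B * x ^ (D + 1) = m * B * x * x ^ D := by ring
      _ ≤ δ / 2 * x ^ D := mul_le_mul_of_nonneg_right h5 (by positivity)
  have h5 : δ * x ^ D ≤ |L| * x ^ D := mul_le_mul_of_nonneg_right hlead (by positivity)
  have h6 : x ^ K ≤ x ^ D := pow_le_pow_of_le_one hx0.le inv_le_one hD.le
  have h7 : δ / 2 * x ^ K ≤ δ / 2 * x ^ D := mul_le_mul_of_nonneg_left h6 (by positivity)
  linarith

lemma H_zero_of_lt (q : List ℕ) : ∀ n < q.length, H q n = 0 := by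
  induction q with
  | nil => intro n hn; exact absurd hn (Nat.not_lt_zero _)
  | cons s q ih =>
    intro n hn
    rw [H_cons]
    refine Finset.sum_eq_zero fun k hk => ?_
    rw [ih k (by have := Finset.mem_range.1 hk; rw [List.length_cons] at hn; omega), mul_zero]

/-- the transfer to the values -/
lemma transfer (U : Finset (List ℕ+)) (c : List ℕ+ → ℝ) (K : ℕ) (s : ℕ) (q : List ℕ)
    (hadm : ∀ u ∈ U, Adm (toN u ++ s :: q)) (hadmK : Adm ((s + K) :: q)) (ε κ : ℝ) (hε : |ε| = 1)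
    (h : ∀ j : ℕ, q.length + 1 ≤ j → κ * ((j : ℝ)⁻¹) ^ K ≤ ε * ∑ u ∈ U, c u * T (toN u) j) :
    κ * val ((s + K) :: q) ≤ |∑ u ∈ U, c u * val (toN u ++ s :: q)| := by
  have h1 : Tendsto (fun N => ε * ∑ u ∈ U, c u * ∑ n ∈ Finset.range N,
      H q n * (((n + 1 : ℕ) : ℝ) ^ s)⁻¹ * T (toN u) (n + 1)) atTop
      (𝓝 (ε * ∑ u ∈ U, c u * val (toN u ++ s :: q))) :=
    (tendsto_finsetSum _ fun u hu => (val_app (toN u) s q (hadm u hu)).const_mul _).const_mul _
  have h2 : Tendsto (fun N => κ * H ((s + K) :: q) N) atTop (𝓝 (κ * val ((s + K) :: q))) :=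
    (tendsto_H _ hadmK).const_mul _
  have h3 : κ * val ((s + K) :: q) ≤ ε * ∑ u ∈ U, c u * val (toN u ++ s :: q) := by
    refine le_of_tendsto_of_tendsto h2 h1 (Eventually.of_forall fun N => ?_)
    simp only
    rw [H_cons, Finset.mul_sum]
    have e : ε * ∑ u ∈ U, c u * ∑ n ∈ Finset.range N,
        H q n * (((n + 1 : ℕ) : ℝ) ^ s)⁻¹ * T (toN u) (n + 1) =
        ∑ n ∈ Finset.range N, H q n * (((n + 1 : ℕ) : ℝ) ^ s)⁻¹ * (ε * ∑ u ∈ U, c u * T (toN u) (n + 1)) := by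
      rw [Finset.sum_congr rfl fun u _ => Finset.mul_sum _ _ (c u), Finset.sum_comm, Finset.mul_sum]
      refine Finset.sum_congr rfl fun n _ => ?_
      rw [Finset.mul_sum, Finset.mul_sum, Finset.mul_sum]
      exact Finset.sum_congr rfl fun u _ => by ring
    rw [e]
    refine Finset.sum_le_sum fun n _ => ?_
    rcases Nat.lt_or_ge n q.length with hn | hn
    · rw [H_zero_of_lt q n hn, zero_mul, zero_mul, mul_zero, mul_zero]
    · have h4 := h (n + 1) (by omega)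
      have h5 : 0 ≤ H q n * (((n + 1 : ℕ) : ℝ) ^ s)⁻¹ := mul_nonneg (H_nonneg _ _) (by positivity)
      refine le_trans (le_of_eq ?_) (mul_le_mul_of_nonneg_left h4 h5)
      rw [pow_add, mul_inv, inv_pow]
      ring
  refine h3.trans ?_
  calc ε * ∑ u ∈ U, c u * val (toN u ++ s :: q) ≤ |ε * ∑ u ∈ U, c u * val (toN u ++ s :: q)| := le_abs_self _
    _ = _ := by rw [abs_mul, hε, one_mul]

/-- a common denominator -/
lemma denom (U : Finset (List ℕ+)) (K : ℕ) (a : List ℕ+ → ℕ → ℚ) : ∃ Q : ℕ, 1 ≤ Q ∧ ∀ (c : List ℕ+ → ℤ), ∀ k < K,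
    ∑ u ∈ U, (c u : ℚ) * a u k ≠ 0 → 1 / (Q : ℚ) ≤ |∑ u ∈ U, (c u : ℚ) * a u k| := by
  classical
  refine ⟨∏ u ∈ U, ∏ k ∈ Finset.range K, (a u k).den, ?_, ?_⟩
  · exact Nat.succ_le_of_lt (Finset.prod_pos fun u _ => Finset.prod_pos fun n _ => Rat.den_pos _)
  · intro c k hk hne
    set Q := ∏ u ∈ U, ∏ k ∈ Finset.range K, (a u k).den with hQ
    have hQ0 : 0 < Q := Finset.prod_pos fun u _ => Finset.prod_pos fun n _ => Rat.den_pos _
    have h1 : ∀ u ∈ U, ∃ z : ℤ, (Q : ℚ) * a u k = z := by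
      intro u hu
      have h2 : (a u k).den ∣ Q :=
        (Finset.dvd_prod_of_mem (fun k => (a u k).den) (Finset.mem_range.2 hk)).trans
          (Finset.dvd_prod_of_mem (fun u => ∏ k ∈ Finset.range K, (a u k).den) hu)
      obtain ⟨r, hr⟩ := h2
      refine ⟨r * (a u k).num, ?_⟩
      rw [hr]
      push_cast
      have h3 := Rat.mul_den_eq_num (a u k)
      rw [← h3]
      ring
    choose! z hz using h1
    have h4 : (Q : ℚ) * ∑ u ∈ U, (c u : ℚ) * a u k = ((∑ u ∈ U, c u * z u : ℤ) : ℚ) := by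
      rw [Finset.mul_sum]
      push_cast
      refine Finset.sum_congr rfl fun u hu => ?_
      rw [← hz u hu]
      ring
    have hQq : (0 : ℚ) < Q := by exact_mod_cast hQ0
    have h5 : (∑ u ∈ U, c u * z u : ℤ) ≠ 0 := by
      intro h
      rw [h, Int.cast_zero] at h4
      rcases mul_eq_zero.1 h4 with h | h
      · exact hQq.ne' h
      · exact hne h
    have h6 : (1 : ℚ) ≤ |((∑ u ∈ U, c u * z u : ℤ) : ℚ)| := by
      rw [← Int.cast_abs]
      exact_mod_cast Int.one_le_abs h5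
    rw [← h4, abs_mul, abs_of_pos hQq] at h6
    rw [div_le_iff₀ hQq, mul_comm]
    exact h6

/-- the first nonzero coefficient -/
lemma first_coeff (U : Finset (List ℕ+)) (K : ℕ) (a : List ℕ+ → ℕ → ℚ)
    (h : ∀ c : List ℕ+ → ℚ, (∀ k < K, ∑ u ∈ U, c u * a u k = 0) → ∀ u ∈ U, c u = 0)
    (c : List ℕ+ → ℝ) (hc : ∃ u ∈ U, c u ≠ 0) : ∃ D < K, (∀ k < D, ∑ u ∈ U, c u * (a u k : ℝ) = 0) ∧
      ∑ u ∈ U, c u * (a u D : ℝ) ≠ 0 := by
  classical
  have hex : ∃ k, k < K ∧ ∑ u ∈ U, c u * (a u k : ℝ) ≠ 0 := by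
    by_contra hcon
    push Not at hcon
    obtain ⟨u, hu, hcu⟩ := hc
    exact hcu (real_of_rat U K a h c hcon u hu)
  refine ⟨Nat.find hex, (Nat.find_spec hex).1, fun k hk => ?_, (Nat.find_spec hex).2⟩
  have h1 := Nat.find_min hex hk
  by_contra h2
  exact h1 ⟨hk.trans (Nat.find_spec hex).1, h2⟩

lemma adm_K {s K : ℕ} {q : List ℕ} (hs : 1 ≤ s) (hK : 1 ≤ K) (hq : ∀ x ∈ q, 1 ≤ x) : Adm ((s + K) :: q) := by
  refine ⟨fun x hx => ?_, fun x t h => ?_⟩
  · rcases List.mem_cons.1 hx with rfl | h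
    · omega
    · exact hq x h
  · rw [← (List.cons.inj h).1]
    omega

lemma H_pos (q : List ℕ) : 0 < H q q.length := by
  induction q with
  | nil => rw [H_nil]; exact one_pos
  | cons s q ih =>
    rw [List.length_cons, H_cons_succ]
    have h1 := H_nonneg (s :: q) q.length
    have h2 : (0 : ℝ) < (((q.length + 1 : ℕ) : ℝ) ^ s)⁻¹ * H q q.length := mul_pos (by positivity) ih
    linarith

/-- **integer coefficients** -/
theorem main_int (U : Finset (List ℕ+)) (hU : ∀ u ∈ U, Adm (toN u)) : ∃ κ : ℝ, 0 < κ ∧ ∃ K : ℕ, 1 ≤ K ∧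
    ∀ (s : ℕ) (q : List ℕ), 1 ≤ s → (∀ x ∈ q, 1 ≤ x) → (∀ u ∈ U, Adm (toN u ++ s :: q)) →
    ∀ c : List ℕ+ → ℤ, (∀ u ∈ U, |(c u : ℝ)| ≤ κ * ((q.length : ℝ) + 1)) → (∃ u ∈ U, c u ≠ 0) →
      κ * val ((s + K) :: q) ≤ |∑ u ∈ U, (c u : ℝ) * val (toN u ++ s :: q)| := by
  obtain ⟨K, P, hK, hP, hind⟩ := data U hU
  obtain ⟨J, B, hJ, hB, hsign⟩ := sign_const U K P hP
  obtain ⟨Q, hQ1, hQ⟩ := denom U K fun u k => (P u).coeff k
  have hQr : (1 : ℝ) ≤ Q := by exact_mod_cast hQ1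
  have hQ0 : (0 : ℝ) < Q := by linarith
  have hJr : (1 : ℝ) ≤ J := by exact_mod_cast hJ
  set κ : ℝ := min (1 / (2 * Q)) (min (1 / J) (1 / (Q * B))) with hκ
  have hκ0 : 0 < κ := lt_min (by positivity) (lt_min (by positivity) (by positivity))
  have hκ1 : κ ≤ 1 / (2 * Q) := min_le_left _ _
  have hκ2 : κ ≤ 1 / J := (min_le_right _ _).trans (min_le_left _ _)
  have hκ3 : κ ≤ 1 / (Q * B) := (min_le_right _ _).trans (min_le_right _ _)
  refine ⟨κ, hκ0, K, hK, fun s q hs hq hadm c hc hne => ?_⟩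
  obtain ⟨u0, hu0, hcu0⟩ := hne
  set m : ℝ := κ * ((q.length : ℝ) + 1) with hm
  have hm0 : 0 ≤ m := by positivity
  -- the length is at least `J`
  have hlen : (J : ℝ) ≤ (q.length : ℝ) + 1 := by
    have h1 : (1 : ℝ) ≤ |(c u0 : ℝ)| := by
      rw [← Int.cast_abs]
      exact_mod_cast Int.one_le_abs hcu0
    have h2 := h1.trans (hc u0 hu0)
    have h3 : κ * ((q.length : ℝ) + 1) ≤ 1 / J * ((q.length : ℝ) + 1) :=
      mul_le_mul_of_nonneg_right hκ2 (by positivity)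
    have h4 := h2.trans h3
    rw [one_div, ← div_eq_inv_mul, le_div_iff₀ (by linarith)] at h4
    linarith
  have hlen' : J ≤ q.length + 1 := by exact_mod_cast hlen
  obtain ⟨D, hDK, hlow, hlead⟩ := first_coeff U K (fun u k => (P u).coeff k) hind (fun u => (c u : ℝ))
    ⟨u0, hu0, by exact_mod_cast hcu0⟩
  have hlead' : 1 / (Q : ℝ) ≤ |∑ u ∈ U, (c u : ℝ) * ((P u).coeff D : ℝ)| := by
    have e : ∑ u ∈ U, (c u : ℝ) * ((P u).coeff D : ℝ) = ((∑ u ∈ U, (c u : ℚ) * (P u).coeff D : ℚ) : ℝ) := by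
      push_cast
      rfl
    have h1 : ∑ u ∈ U, (c u : ℚ) * (P u).coeff D ≠ 0 := by
      intro h0
      apply hlead
      rw [e, h0, Rat.cast_zero]
    have h2 := hQ c D hDK h1
    have h3 := (Rat.cast_le (K := ℝ)).2 h2
    rw [Rat.cast_div, Rat.cast_one, Rat.cast_natCast, Rat.cast_abs, ← e] at h3
    exact h3
  obtain ⟨ε, hε, hmain⟩ := hsign (fun u => (c u : ℝ)) m hc hm0 D hDK hlow (1 / Q) (by positivity) hlead'
  have hadmK : Adm ((s + K) :: q) := adm_K hs hK hq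
  have h1 : 1 / (2 * (Q : ℝ)) * val ((s + K) :: q) ≤ |∑ u ∈ U, (c u : ℝ) * val (toN u ++ s :: q)| := by
    refine transfer U (fun u => (c u : ℝ)) K s q hadm hadmK ε _ hε fun j hj => ?_
    have hjr : (q.length : ℝ) + 1 ≤ j := by exact_mod_cast hj
    have h2 := hmain j (hlen'.trans hj) ?_
    · rw [show 1 / (2 * (Q : ℝ)) = 1 / (Q : ℝ) / 2 by field_simp]
      exact h2
    · calc m * B ≤ 1 / (Q * B) * ((q.length : ℝ) + 1) * B := by
            rw [hm]
            exact mul_le_mul_of_nonneg_right (mul_le_mul_of_nonneg_right hκ3 (by positivity)) hB.le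
        _ = 1 / Q * ((q.length : ℝ) + 1) := by field_simp
        _ ≤ 1 / Q * j := mul_le_mul_of_nonneg_left hjr (by positivity)
  have h2 : 0 ≤ val ((s + K) :: q) := (H_nonneg _ 0).trans (H_le_val _ hadmK 0)
  exact (mul_le_mul_of_nonneg_right hκ1 h2).trans h1

/-- **real coefficients** -/
theorem main_real (U : Finset (List ℕ+)) (hU : ∀ u ∈ U, Adm (toN u)) (c : List ℕ+ → ℝ) (hc : ∃ u ∈ U, c u ≠ 0) :
    ∃ L : ℕ, ∀ (s : ℕ) (q : List ℕ), 1 ≤ s → (∀ x ∈ q, 1 ≤ x) → (∀ u ∈ U, Adm (toN u ++ s :: q)) →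
      L ≤ q.length → ∑ u ∈ U, c u * val (toN u ++ s :: q) ≠ 0 := by
  obtain ⟨K, P, hK, hP, hind⟩ := data U hU
  obtain ⟨J, B, hJ, hB, hsign⟩ := sign_const U K P hP
  obtain ⟨D, hDK, hlow, hlead⟩ := first_coeff U K (fun u k => (P u).coeff k) hind c hc
  set m : ℝ := ∑ u ∈ U, |c u| with hm
  have hm0 : 0 ≤ m := Finset.sum_nonneg fun u _ => abs_nonneg _
  have hcm : ∀ u ∈ U, |c u| ≤ m := fun u hu =>
    Finset.single_le_sum (f := fun u => |c u|) (fun _ _ => abs_nonneg _) hu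
  have hδ : 0 < |∑ u ∈ U, c u * ((P u).coeff D : ℝ)| := abs_pos.2 hlead
  obtain ⟨ε, hε, hmain⟩ := hsign c m hcm hm0 D hDK hlow _ hδ le_rfl
  obtain ⟨L, hL⟩ := exists_nat_ge (m * B / |∑ u ∈ U, c u * ((P u).coeff D : ℝ)|)
  refine ⟨J + L, fun s q hs hq hadm hlen h0 => ?_⟩
  have hadmK : Adm ((s + K) :: q) := adm_K hs hK hq
  have h1 := transfer U c K s q hadm hadmK ε _ hε fun j hj => hmain j (by omega) ?_
  · rw [h0, abs_zero] at h1
    have h2 : 0 < val ((s + K) :: q) := lt_of_lt_of_le (H_pos _) (H_le_val _ hadmK _)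
    have h3 : 0 < |∑ u ∈ U, c u * ((P u).coeff D : ℝ)| / 2 * val ((s + K) :: q) := by positivity
    linarith
  · rw [div_le_iff₀ hδ] at hL
    have h4 : (L : ℝ) ≤ j := by exact_mod_cast (by omega : L ≤ j)
    calc m * B ≤ L * |∑ u ∈ U, c u * ((P u).coeff D : ℝ)| := hL
      _ ≤ j * |∑ u ∈ U, c u * ((P u).coeff D : ℝ)| := mul_le_mul_of_nonneg_right h4 hδ.le
      _ = _ := mul_comm _ _

end Pool.Agent.K9h52.CS
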