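import Mathlib
import Pool.Agent.K9h52.CS.Main
import Pool.Agent.Q217.TT.Measure

/-!
# Linear forms with product coefficients in the `ζ(u p v)`, `p` long
-/

set_option autoImplicit false

namespace Pool.Agent.K9h52.CS

open Filter Asymptotics Topology Polynomial
open Pool.Agent.H447R2.MZ (H H_nil H_cons H_cons_zero H_cons_succ H_nonneg Adm val tendsto_H H_le_val)
open Pool.Agent.Q217.TT (ep ep_nil ep_self ep_nonneg ep_succ ep_left ep_anti ep_mono H_app ep_step nat H_nat indep_fin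
  common_den upper)

/-- the sums over the variables above `M` of a product word -/
lemma ep_app (u : List ℕ) (t : ℕ) (q : List ℕ) (M N : ℕ) (h : M ≤ N) : ep (u ++ t :: q) M N =
    ∑ k ∈ Finset.Ico M N, ep q M k * (((k + 1 : ℕ) : ℝ) ^ t)⁻¹ * ep u (k + 1) N := by
  induction u generalizing N with
  | nil =>
    rw [List.nil_append, ep_cons]
    refine Finset.sum_congr rfl fun n _ => ?_
    rw [ep_nil]
    ring
  | cons s u ih =>
    induction N, h using Nat.le_induction with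
    | base => rw [List.cons_append, ep_self]; simp
    | succ N hN ihN =>
      rw [List.cons_append] at ihN
      rw [List.cons_append, ep_succ s _ hN, ihN, ih N hN, Finset.sum_Ico_succ_top hN, ep_self, mul_zero, add_zero,
        Finset.mul_sum, ← Finset.sum_add_distrib]
      refine Finset.sum_congr rfl fun n hn => ?_
      rw [ep_succ s u (by have := (Finset.mem_Ico.1 hn).2; omega : n + 1 ≤ N)]
      ring

lemma ep_zero_of_lt (q : List ℕ) (M : ℕ) : ∀ k, M ≤ k → k < M + q.length → ep q M k = 0 := by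
  induction q with
  | nil => intro k h1 h2; rw [List.length_nil] at h2; omega
  | cons s q ih =>
    intro k h1 h2
    rw [ep_cons]
    refine Finset.sum_eq_zero fun n hn => ?_
    obtain ⟨h3, h4⟩ := Finset.mem_Ico.1 hn
    rw [List.length_cons] at h2
    rw [ih n h3 (by omega), mul_zero]

/-- the tail of `u t q` as a sum with weights `T u` -/
lemma T_app (u : List ℕ) (t : ℕ) (q : List ℕ) (h : Adm (u ++ t :: q)) (M : ℕ) :
    Tendsto (fun N => ∑ k ∈ Finset.Ico M N, ep q M k * (((k + 1 : ℕ) : ℝ) ^ t)⁻¹ * T u (k + 1)) atTop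
      (𝓝 (T (u ++ t :: q) M)) := by
  have hu : Adm u := adm_left h
  refine tendsto_of_tendsto_of_tendsto_of_le_of_le' (tendsto_T h M) tendsto_const_nhds ?_ ?_
  · filter_upwards [eventually_ge_atTop M] with N hN
    rw [ep_app u t q M N hN]
    exact Finset.sum_le_sum fun n _ => mul_le_mul_of_nonneg_left (ep_le_T hu _ _)
      (mul_nonneg (ep_nonneg _ _ _) (by positivity))
  · filter_upwards [eventually_ge_atTop M] with N hN
    have h1 : Tendsto (fun N' => ∑ k ∈ Finset.Ico M N, ep q M k * (((k + 1 : ℕ) : ℝ) ^ t)⁻¹ * ep u (k + 1) N') atTop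
        (𝓝 (∑ k ∈ Finset.Ico M N, ep q M k * (((k + 1 : ℕ) : ℝ) ^ t)⁻¹ * T u (k + 1))) :=
      tendsto_finsetSum _ fun n _ => (tendsto_T hu (n + 1)).const_mul _
    refine le_of_tendsto h1 ?_
    filter_upwards [eventually_ge_atTop N] with N' hN'
    refine le_trans ?_ (ep_le_T h M N')
    rw [ep_app u t q M N' (hN.trans hN')]
    exact Finset.sum_le_sum_of_subset_of_nonneg (Finset.Ico_subset_Ico_right hN')
      fun n _ _ => mul_nonneg (mul_nonneg (ep_nonneg _ _ _) (by positivity)) (ep_nonneg _ _ _)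

/-- comparison of a combination of tails with one tail -/
lemma compare (U : Finset (List ℕ+)) (a : List ℕ+ → ℝ) (t D : ℕ) (q : List ℕ) (M : ℕ) (ε lo hi : ℝ)
    (hadm : ∀ u ∈ U, Adm (toN u ++ t :: q)) (hadmD : Adm ((t + D) :: q))
    (h : ∀ j : ℕ, q.length + 1 ≤ j → lo * ((j : ℝ)⁻¹) ^ D ≤ ε * ∑ u ∈ U, a u * T (toN u) j ∧
      ε * ∑ u ∈ U, a u * T (toN u) j ≤ hi * ((j : ℝ)⁻¹) ^ D) :
    lo * T ((t + D) :: q) M ≤ ε * ∑ u ∈ U, a u * T (toN u ++ t :: q) M ∧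
      ε * ∑ u ∈ U, a u * T (toN u ++ t :: q) M ≤ hi * T ((t + D) :: q) M := by
  have h1 : Tendsto (fun N => ε * ∑ u ∈ U, a u * ∑ k ∈ Finset.Ico M N,
      ep q M k * (((k + 1 : ℕ) : ℝ) ^ t)⁻¹ * T (toN u) (k + 1)) atTop
      (𝓝 (ε * ∑ u ∈ U, a u * T (toN u ++ t :: q) M)) :=
    (tendsto_finsetSum _ fun u hu => (T_app (toN u) t q (hadm u hu) M).const_mul _).const_mul _
  have hD : ∀ c : ℝ, Tendsto (fun N => c * ep ((t + D) :: q) M N) atTop (𝓝 (c * T ((t + D) :: q) M)) :=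
    fun c => (tendsto_T hadmD M).const_mul _
  have e : ∀ N, ε * ∑ u ∈ U, a u * ∑ k ∈ Finset.Ico M N,
      ep q M k * (((k + 1 : ℕ) : ℝ) ^ t)⁻¹ * T (toN u) (k + 1) =
      ∑ k ∈ Finset.Ico M N, ep q M k * (((k + 1 : ℕ) : ℝ) ^ t)⁻¹ * (ε * ∑ u ∈ U, a u * T (toN u) (k + 1)) := by
    intro N
    rw [Finset.sum_congr rfl fun u _ => Finset.mul_sum _ _ (a u), Finset.sum_comm, Finset.mul_sum]
    refine Finset.sum_congr rfl fun n _ => ?_
    rw [Finset.mul_sum, Finset.mul_sum, Finset.mul_sum]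
    exact Finset.sum_congr rfl fun u _ => by ring
  have e2 : ∀ (c : ℝ) (N : ℕ), c * ep ((t + D) :: q) M N = ∑ k ∈ Finset.Ico M N,
      ep q M k * (((k + 1 : ℕ) : ℝ) ^ t)⁻¹ * (c * ((((k + 1 : ℕ) : ℝ))⁻¹) ^ D) := by
    intro c N
    rw [ep_cons, Finset.mul_sum]
    refine Finset.sum_congr rfl fun n _ => ?_
    rw [pow_add, mul_inv, inv_pow]
    ring
  constructor
  · refine le_of_tendsto_of_tendsto (hD lo) h1 (Eventually.of_forall fun N => ?_)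
    simp only
    rw [e, e2]
    refine Finset.sum_le_sum fun k hk => ?_
    rcases Nat.lt_or_ge k (M + q.length) with hkq | hkq
    · rw [ep_zero_of_lt q M k (Finset.mem_Ico.1 hk).1 hkq, zero_mul, zero_mul, zero_mul]
    · exact mul_le_mul_of_nonneg_left (h (k + 1) (by omega)).1 (mul_nonneg (ep_nonneg _ _ _) (by positivity))
  · refine le_of_tendsto_of_tendsto h1 (hD hi) (Eventually.of_forall fun N => ?_)
    simp only
    rw [e, e2]
    refine Finset.sum_le_sum fun k hk => ?_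
    rcases Nat.lt_or_ge k (M + q.length) with hkq | hkq
    · rw [ep_zero_of_lt q M k (Finset.mem_Ico.1 hk).1 hkq, zero_mul, zero_mul, zero_mul]
    · exact mul_le_mul_of_nonneg_left (h (k + 1) (by omega)).2 (mul_nonneg (ep_nonneg _ _ _) (by positivity))

lemma T_anti {q : List ℕ} (hq : Adm q) {M M' : ℕ} (h : M ≤ M') : T q M' ≤ T q M := by
  refine le_of_tendsto_of_tendsto (tendsto_T hq M') (tendsto_T hq M) ?_
  filter_upwards [eventually_ge_atTop M'] with N hN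
  exact ep_anti q h hN

lemma T_step {q : List ℕ} (hq : Adm q) (h2 : ∀ x ∈ q, 2 ≤ x) (M : ℕ) :
    (q.length : ℝ) * T q (M + 1) ≤ ((M : ℝ) + 1) * T q M := by
  refine le_of_tendsto_of_tendsto ((tendsto_T hq (M + 1)).const_mul _) ((tendsto_T hq M).const_mul _) ?_
  filter_upwards [eventually_ge_atTop (M + 1)] with N hN
  exact ep_step q h2 hN

lemma adm_two' {q : List ℕ} (h2 : ∀ x ∈ q, 2 ≤ x) : Adm q := by
  refine ⟨fun x hx => (by norm_num : 1 ≤ 2).trans (h2 x hx), fun x t h => h2 x (by rw [h]; exact List.mem_cons_self)⟩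

/-- **the core estimate** -/
theorem core (U V : Finset (List ℕ+)) (Vc : ℝ) (hVc : ∀ N, ∑ n ∈ Finset.range N,
      (∑ v ∈ V, H (toN v) n) * (((n + 1 : ℕ) : ℝ) ^ 2)⁻¹ ≤ Vc)
    (a b : List ℕ+ → ℝ) (β γ lo : ℝ) (hlo : 0 ≤ lo) (t D s n0 : ℕ) (q : List ℕ) (ht : 2 ≤ t) (hs : 2 ≤ s)
    (hq : ∀ x ∈ q, 2 ≤ x)
    (hadm : ∀ u ∈ U, ∀ v ∈ V, Adm ((toN u ++ t :: q) ++ s :: toN v))
    (hadmU : ∀ u ∈ U, Adm (toN u ++ t :: q))
    (ε : ℝ) (hε : |ε| = 1)
    (hf : ∀ j : ℕ, q.length + 1 ≤ j → lo * ((j : ℝ)⁻¹) ^ D ≤ ε * ∑ u ∈ U, a u * T (toN u) j ∧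
      ε * ∑ u ∈ U, a u * T (toN u) j ≤ 3 * lo * ((j : ℝ)⁻¹) ^ D)
    (hb : ∀ v ∈ V, |b v| ≤ β) (hβ : 0 ≤ β) (hzero : ∀ n < n0, ∑ v ∈ V, b v * H (toN v) n = 0)
    (hγ : γ ≤ |∑ v ∈ V, b v * H (toN v) n0|) :
    lo * T ((t + D) :: q) (n0 + 1) * ((((n0 + 1 : ℕ) : ℝ) ^ (s - 2))⁻¹ *
      (γ * (((n0 + 1 : ℕ) : ℝ) ^ 2)⁻¹ - 3 * β * Vc * ((n0 : ℝ) + 2) / (q.length + 1))) ≤
      |∑ u ∈ U, ∑ v ∈ V, a u * b v * val ((toN u ++ t :: q) ++ s :: toN v)| := by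
  obtain ⟨s', rfl⟩ : ∃ s', s = s' + 2 := ⟨s - 2, by omega⟩
  rw [Nat.add_sub_cancel]
  set g : ℕ → ℝ := fun n => ∑ v ∈ V, b v * H (toN v) n with hg
  set F : ℕ → ℝ := fun n => ε * ∑ u ∈ U, a u * T (toN u ++ t :: q) (n + 1) with hF
  set G : ℕ → ℝ := fun n => T ((t + D) :: q) (n + 1) with hG
  have hadmD : Adm ((t + D) :: q) := adm_two' fun x hx => by
    rcases List.mem_cons.1 hx with rfl | h
    · omega
    · exact hq x h
  have h2D : ∀ x ∈ (t + D) :: q, 2 ≤ x := fun x hx => by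
    rcases List.mem_cons.1 hx with rfl | h
    · omega
    · exact hq x h
  have hG0 : ∀ n, 0 ≤ G n := fun n => T_nonneg hadmD _
  have hcmp : ∀ n, lo * G n ≤ F n ∧ F n ≤ 3 * lo * G n := fun n =>
    compare U a t D q (n + 1) ε lo (3 * lo) hadmU hadmD hf
  have hF0 : ∀ n, 0 ≤ F n := fun n => (mul_nonneg hlo (hG0 n)).trans (hcmp n).1
  -- the limit
  have hlim : Tendsto (fun N => ∑ n ∈ Finset.range N, g n * (((n + 1 : ℕ) : ℝ) ^ (s' + 2))⁻¹ * F n) atTop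
      (𝓝 (ε * ∑ u ∈ U, ∑ v ∈ V, a u * b v * val ((toN u ++ t :: q) ++ (s' + 2) :: toN v))) := by
    have h1 : Tendsto (fun N => ε * ∑ u ∈ U, ∑ v ∈ V, a u * b v * ∑ n ∈ Finset.range N,
        H (toN v) n * (((n + 1 : ℕ) : ℝ) ^ (s' + 2))⁻¹ * T (toN u ++ t :: q) (n + 1)) atTop
        (𝓝 (ε * ∑ u ∈ U, ∑ v ∈ V, a u * b v * val ((toN u ++ t :: q) ++ (s' + 2) :: toN v))) :=
      (tendsto_finsetSum _ fun u hu => tendsto_finsetSum _ fun v hv =>
        (val_app (toN u ++ t :: q) (s' + 2) (toN v) (hadm u hu v hv)).const_mul _).const_mul _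
    refine h1.congr fun N => ?_
    simp only [hg, hF]
    have e1 : ∀ u ∈ U, ∑ v ∈ V, a u * b v * ∑ n ∈ Finset.range N,
        H (toN v) n * (((n + 1 : ℕ) : ℝ) ^ (s' + 2))⁻¹ * T (toN u ++ t :: q) (n + 1) =
        ∑ n ∈ Finset.range N, (∑ v ∈ V, b v * H (toN v) n) * (((n + 1 : ℕ) : ℝ) ^ (s' + 2))⁻¹ *
          (a u * T (toN u ++ t :: q) (n + 1)) := by
      intro u _
      rw [Finset.sum_congr rfl fun v _ => Finset.mul_sum _ _ (a u * b v), Finset.sum_comm]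
      refine Finset.sum_congr rfl fun n _ => ?_
      rw [Finset.sum_mul, Finset.sum_mul]
      exact Finset.sum_congr rfl fun v _ => by ring
    rw [Finset.sum_congr rfl e1, Finset.sum_comm, Finset.mul_sum]
    refine Finset.sum_congr rfl fun n _ => ?_
    rw [← Finset.mul_sum]
    ring
  set S : ℝ := ∑ u ∈ U, ∑ v ∈ V, a u * b v * val ((toN u ++ t :: q) ++ (s' + 2) :: toN v) with hS
  have habs : |ε * S| = |S| := by rw [abs_mul, hε, one_mul]
  rw [← habs]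
  have hq0 : (0 : ℝ) < (q.length : ℝ) + 1 := by positivity
  refine ge_of_tendsto hlim.abs ?_
  filter_upwards [eventually_ge_atTop (n0 + 1)] with N hN
  -- the main term and the rest
  have hsplit : ∑ n ∈ Finset.range N, g n * (((n + 1 : ℕ) : ℝ) ^ (s' + 2))⁻¹ * F n =
      g n0 * (((n0 + 1 : ℕ) : ℝ) ^ (s' + 2))⁻¹ * F n0 +
        ∑ n ∈ Finset.Ico (n0 + 1) N, g n * (((n + 1 : ℕ) : ℝ) ^ (s' + 2))⁻¹ * F n := by
    rw [← Finset.sum_range_add_sum_Ico _ hN, Finset.sum_range_succ,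
      Finset.sum_eq_zero (s := Finset.range n0) fun n hn => by
        rw [show g n = 0 from hzero n (Finset.mem_range.1 hn), zero_mul, zero_mul], zero_add]
  have hGstep : ∀ n, n0 + 1 ≤ n → G n ≤ ((n0 : ℝ) + 2) / (q.length + 1) * G n0 := by
    intro n hn
    have h1 : G n ≤ G (n0 + 1) := T_anti hadmD (by omega)
    have h2 := T_step hadmD h2D (n0 + 1)
    rw [List.length_cons] at h2
    push_cast at h2
    refine h1.trans ?_
    rw [div_mul_eq_mul_div, le_div_iff₀ hq0, mul_comm]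
    refine h2.trans (le_of_eq ?_)
    rw [show (n0 : ℝ) + 1 + 1 = (n0 : ℝ) + 2 by ring]
  have hrest : |∑ n ∈ Finset.Ico (n0 + 1) N, g n * (((n + 1 : ℕ) : ℝ) ^ (s' + 2))⁻¹ * F n| ≤
      (((n0 + 1 : ℕ) : ℝ) ^ s')⁻¹ * (3 * lo * (((n0 : ℝ) + 2) / (q.length + 1) * G n0)) * (β * Vc) := by
    refine (Finset.abs_sum_le_sum_abs _ _).trans ?_
    have h1 : ∀ n ∈ Finset.Ico (n0 + 1) N, |g n * (((n + 1 : ℕ) : ℝ) ^ (s' + 2))⁻¹ * F n| ≤
        (((n0 + 1 : ℕ) : ℝ) ^ s')⁻¹ * (3 * lo * (((n0 : ℝ) + 2) / (q.length + 1) * G n0)) *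
          (β * ((∑ v ∈ V, H (toN v) n) * (((n + 1 : ℕ) : ℝ) ^ 2)⁻¹)) := by
      intro n hn
      obtain ⟨hn1, hn2⟩ := Finset.mem_Ico.1 hn
      rw [abs_mul, abs_mul, abs_of_nonneg (hF0 n),
        abs_of_nonneg (by positivity : (0 : ℝ) ≤ (((n + 1 : ℕ) : ℝ) ^ (s' + 2))⁻¹)]
      have h3 : F n ≤ 3 * lo * (((n0 : ℝ) + 2) / (q.length + 1) * G n0) :=
        (hcmp n).2.trans (mul_le_mul_of_nonneg_left (hGstep n hn1) (by positivity))
      have h4 : |g n| ≤ β * ∑ v ∈ V, H (toN v) n := by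
        refine (Finset.abs_sum_le_sum_abs _ _).trans ?_
        rw [Finset.mul_sum]
        refine Finset.sum_le_sum fun v hv => ?_
        rw [abs_mul, abs_of_nonneg (H_nonneg (toN v) n)]
        exact mul_le_mul_of_nonneg_right (hb v hv) (H_nonneg _ _)
      have h5 : (((n + 1 : ℕ) : ℝ) ^ (s' + 2))⁻¹ ≤
          (((n + 1 : ℕ) : ℝ) ^ 2)⁻¹ * (((n0 + 1 : ℕ) : ℝ) ^ s')⁻¹ := by
        rw [← mul_inv]
        apply inv_anti₀ (by positivity)
        rw [pow_add, mul_comm]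
        apply mul_le_mul_of_nonneg_right _ (by positivity)
        apply pow_le_pow_left₀ (by positivity)
        exact_mod_cast (by omega : n0 + 1 ≤ n + 1)
      have hHs : 0 ≤ ∑ v ∈ V, H (toN v) n := Finset.sum_nonneg fun v _ => H_nonneg _ _
      calc |g n| * (((n + 1 : ℕ) : ℝ) ^ (s' + 2))⁻¹ * F n
          ≤ (β * ∑ v ∈ V, H (toN v) n) * ((((n + 1 : ℕ) : ℝ) ^ 2)⁻¹ * (((n0 + 1 : ℕ) : ℝ) ^ s')⁻¹) *
              (3 * lo * (((n0 : ℝ) + 2) / (q.length + 1) * G n0)) :=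
            mul_le_mul (mul_le_mul h4 h5 (by positivity) (mul_nonneg hβ hHs)) h3 (hF0 n)
              (mul_nonneg (mul_nonneg hβ hHs) (by positivity))
        _ = _ := by ring
    refine (Finset.sum_le_sum h1).trans ?_
    rw [← Finset.mul_sum, ← Finset.mul_sum]
    have h5 : ∑ n ∈ Finset.Ico (n0 + 1) N, (∑ v ∈ V, H (toN v) n) * (((n + 1 : ℕ) : ℝ) ^ 2)⁻¹ ≤ Vc := by
      refine le_trans ?_ (hVc N)
      refine Finset.sum_le_sum_of_subset_of_nonneg ?_ ?_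
      · intro n hn
        exact Finset.mem_range.2 (Finset.mem_Ico.1 hn).2
      · intro n _ _
        exact mul_nonneg (Finset.sum_nonneg fun v _ => H_nonneg _ _) (by positivity)
    have h6 : 0 ≤ (((n0 + 1 : ℕ) : ℝ) ^ s')⁻¹ * (3 * lo * (((n0 : ℝ) + 2) / (q.length + 1) * G n0)) := by
      have := hG0 n0
      positivity
    exact mul_le_mul_of_nonneg_left (mul_le_mul_of_nonneg_left h5 hβ) h6
  rw [hsplit]
  have h7 := abs_add_le (g n0 * (((n0 + 1 : ℕ) : ℝ) ^ (s' + 2))⁻¹ * F n0 +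
    ∑ n ∈ Finset.Ico (n0 + 1) N, g n * (((n + 1 : ℕ) : ℝ) ^ (s' + 2))⁻¹ * F n)
    (-∑ n ∈ Finset.Ico (n0 + 1) N, g n * (((n + 1 : ℕ) : ℝ) ^ (s' + 2))⁻¹ * F n)
  rw [add_neg_cancel_right, abs_neg] at h7
  have h8 : γ * (((n0 + 1 : ℕ) : ℝ) ^ (s' + 2))⁻¹ * (lo * G n0) ≤
      |g n0 * (((n0 + 1 : ℕ) : ℝ) ^ (s' + 2))⁻¹ * F n0| := by
    rw [abs_mul, abs_mul, abs_of_nonneg (hF0 n0),
      abs_of_nonneg (by positivity : (0 : ℝ) ≤ (((n0 + 1 : ℕ) : ℝ) ^ (s' + 2))⁻¹)]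
    have h9 : 0 ≤ |g n0| * (((n0 + 1 : ℕ) : ℝ) ^ (s' + 2))⁻¹ := mul_nonneg (abs_nonneg _) (by positivity)
    calc γ * (((n0 + 1 : ℕ) : ℝ) ^ (s' + 2))⁻¹ * (lo * G n0)
        ≤ |g n0| * (((n0 + 1 : ℕ) : ℝ) ^ (s' + 2))⁻¹ * (lo * G n0) :=
          mul_le_mul_of_nonneg_right (mul_le_mul_of_nonneg_right hγ (by positivity)) (mul_nonneg hlo (hG0 n0))
      _ ≤ |g n0| * (((n0 + 1 : ℕ) : ℝ) ^ (s' + 2))⁻¹ * F n0 := mul_le_mul_of_nonneg_left (hcmp n0).1 h9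
  have h10 : lo * G n0 * ((((n0 + 1 : ℕ) : ℝ) ^ s')⁻¹ *
      (γ * (((n0 + 1 : ℕ) : ℝ) ^ 2)⁻¹ - 3 * β * Vc * ((n0 : ℝ) + 2) / (q.length + 1))) =
      γ * (((n0 + 1 : ℕ) : ℝ) ^ (s' + 2))⁻¹ * (lo * G n0) -
        (((n0 + 1 : ℕ) : ℝ) ^ s')⁻¹ * (3 * lo * (((n0 : ℝ) + 2) / (q.length + 1) * G n0)) * (β * Vc) := by
    rw [pow_add, mul_inv]
    ring
  rw [h10]
  linarith

end Pool.Agent.K9h52.CS
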