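import Mathlib
import Pool.Agent.K9h52.CS.Two

/-!
# Product coefficients: the theorems
-/

set_option autoImplicit false

namespace Pool.Agent.K9h52.CS

open Filter Asymptotics Topology Polynomial
open Pool.Agent.H447R2.MZ (H H_nil H_cons H_cons_zero H_cons_succ H_nonneg Adm val tendsto_H H_le_val)
open Pool.Agent.Q217.TT (ep ep_nil ep_self ep_nonneg ep_succ ep_left ep_anti ep_mono ep_pos H_app ep_step nat H_nat
  indep_fin common_den upper)

/-- two-sided comparison with the leading term -/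
lemma two_bounds (U : Finset (List ℕ+)) (K : ℕ) (P : List ℕ+ → ℚ[X])
    (hP : ∀ u ∈ U, EXP K (T (toN u)) (P u)) : ∃ (J : ℕ) (B : ℝ), 1 ≤ J ∧ 0 < B ∧
    ∀ (c : List ℕ+ → ℝ) (m : ℝ), (∀ u ∈ U, |c u| ≤ m) → 0 ≤ m → ∀ D < K,
      (∀ k < D, ∑ u ∈ U, c u * ((P u).coeff k : ℝ) = 0) →
      ∃ ε : ℝ, |ε| = 1 ∧ ∀ j : ℕ, J ≤ j → m * B ≤ |∑ u ∈ U, c u * ((P u).coeff D : ℝ)| * j →
        |∑ u ∈ U, c u * ((P u).coeff D : ℝ)| / 2 * ((j : ℝ)⁻¹) ^ D ≤ ε * ∑ u ∈ U, c u * T (toN u) j ∧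
        ε * ∑ u ∈ U, c u * T (toN u) j ≤
          3 * (|∑ u ∈ U, c u * ((P u).coeff D : ℝ)| / 2) * ((j : ℝ)⁻¹) ^ D := by
  obtain ⟨J, B, hJ, hB, h⟩ := leading U K P hP
  refine ⟨J, 2 * B, hJ, by positivity, fun c m hcm hm D hD hlow => ?_⟩
  set L : ℝ := ∑ u ∈ U, c u * ((P u).coeff D : ℝ) with hL
  obtain ⟨ε, hε, hεL⟩ : ∃ ε : ℝ, |ε| = 1 ∧ ε * L = |L| := by
    rcases le_or_gt 0 L with h | h
    · exact ⟨1, abs_one, by rw [one_mul, abs_of_nonneg h]⟩
    · exact ⟨-1, by rw [abs_neg, abs_one], by rw [abs_of_neg h]; ring⟩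
  refine ⟨ε, hε, fun j hj hmj => ?_⟩
  have h1 := h c m hcm hm D hD hlow j hj
  rw [← hL] at h1
  have hj1 : 1 ≤ j := by omega
  have hj0 : (0 : ℝ) < j := by exact_mod_cast hj1
  set x : ℝ := (j : ℝ)⁻¹ with hx
  have hx0 : 0 < x := by positivity
  set F : ℝ := ∑ u ∈ U, c u * T (toN u) j with hF
  have h2 : |ε * F - ε * L * x ^ D| ≤ m * B * x ^ (D + 1) := by
    have e : ε * F - ε * L * x ^ D = ε * (F - L * x ^ D) := by ring
    rw [e, abs_mul, hε, one_mul]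
    exact h1
  have h3 := abs_le.1 h2
  rw [hεL] at h3
  have h4 : m * B * x ^ (D + 1) ≤ |L| / 2 * x ^ D := by
    have h5 : m * B * x ≤ |L| / 2 := by
      rw [hx, ← div_eq_mul_inv, div_le_iff₀ hj0]
      linarith
    calc m * B * x ^ (D + 1) = m * B * x * x ^ D := by ring
      _ ≤ |L| / 2 * x ^ D := mul_le_mul_of_nonneg_right h5 (by positivity)
  constructor
  · linarith [h3.1]
  · linarith [h3.2]

lemma ep_letter (t D K : ℕ) (h : D ≤ K) (q : List ℕ) (M N : ℕ) : ep ((t + K) :: q) M N ≤ ep ((t + D) :: q) M N := by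
  rw [ep_cons, ep_cons]
  refine Finset.sum_le_sum fun n _ => mul_le_mul_of_nonneg_right ?_ (ep_nonneg _ _ _)
  apply inv_anti₀ (by positivity)
  apply pow_le_pow_right₀ _ (by omega)
  push_cast
  linarith [Nat.cast_nonneg (α := ℝ) n]

lemma adm_full {U V : Finset (List ℕ+)} (hU : ∀ u ∈ U, Adm (toN u)) {t s : ℕ} (ht : 2 ≤ t) (hs : 2 ≤ s) {q : List ℕ}
    (hq : ∀ x ∈ q, 2 ≤ x) : ∀ u ∈ U, ∀ v ∈ V, Adm ((toN u ++ t :: q) ++ s :: toN v) := by
  intro u hu v _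
  refine ⟨fun x hx => ?_, fun x r h => ?_⟩
  · simp only [List.mem_append, List.mem_cons] at hx
    rcases hx with (h | rfl | h) | rfl | h
    · exact (hU u hu).1 x h
    · omega
    · exact (by norm_num : 1 ≤ 2).trans (hq x h)
    · omega
    · rw [toN, List.mem_map] at h
      obtain ⟨y, _, rfl⟩ := h
      exact y.pos
  · cases hw : toN u with
    | nil =>
      rw [hw, List.nil_append, List.cons_append] at h
      rw [← (List.cons.inj h).1]
      exact ht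
    | cons y w =>
      rw [hw, List.cons_append, List.cons_append] at h
      rw [← (List.cons.inj h).1]
      exact (hU u hu).2 y w hw

/-- the constant of the right part -/
lemma exists_Vc (V : Finset (List ℕ+)) : ∃ Vc : ℝ, 0 < Vc ∧ ∀ N, ∑ n ∈ Finset.range N,
      (∑ v ∈ V, H (toN v) n) * (((n + 1 : ℕ) : ℝ) ^ 2)⁻¹ ≤ Vc := by
  have hadm2 : ∀ v : List ℕ+, Adm ([] ++ 2 :: toN v) := fun v => Pool.Agent.Q217.TT.adm_app [] (by simp) 2 le_rfl v
  have h0 : 0 ≤ ∑ v ∈ V, val ([] ++ 2 :: toN v) :=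
    Finset.sum_nonneg fun v _ => Pool.Agent.Q217.TT.val_nonneg' (hadm2 v)
  refine ⟨∑ v ∈ V, val ([] ++ 2 :: toN v) + 1, by linarith, fun N => ?_⟩
  have h1 : ∑ n ∈ Finset.range N, (∑ v ∈ V, H (toN v) n) * (((n + 1 : ℕ) : ℝ) ^ 2)⁻¹ =
      ∑ v ∈ V, H ([] ++ 2 :: toN v) N := by
    have h2 : ∀ v : List ℕ+, H ([] ++ 2 :: toN v) N =
        ∑ n ∈ Finset.range N, H (toN v) n * (((n + 1 : ℕ) : ℝ) ^ 2)⁻¹ := by
      intro v
      rw [H_app]
      exact Finset.sum_congr rfl fun n _ => by rw [ep_nil, mul_one]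
    rw [Finset.sum_congr rfl fun v _ => h2 v, Finset.sum_comm]
    exact Finset.sum_congr rfl fun n _ => by rw [Finset.sum_mul]
  rw [h1]
  have h2 := Finset.sum_le_sum fun v (_ : v ∈ V) => H_le_val _ (hadm2 v) N
  linarith

lemma T_pos {q : List ℕ} (hq : Adm q) (M : ℕ) : 0 < T q M := lt_of_lt_of_le (ep_pos q M) (ep_le_T hq _ _)

/-- comparison with one multiple zeta value -/
lemma upper_val (M n0 : ℕ) (h0 : n0 ≤ M) (t D K : ℕ) (hDK : D ≤ K) (ht : 2 ≤ t) (q : List ℕ) (hq : ∀ x ∈ q, 2 ≤ x)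
    (s : ℕ) (hs : 2 ≤ s) :
    val (((t + K) :: q) ++ s :: List.replicate M 2) ≤
      (((n0 + 1 : ℕ) : ℝ) ^ (s - 2))⁻¹ * T ((t + D) :: q) (n0 + 1) * val ([] ++ 2 :: List.replicate M 2) := by
  have h2K : ∀ x ∈ (t + K) :: q, 2 ≤ x := fun x hx => by
    rcases List.mem_cons.1 hx with rfl | h
    · omega
    · exact hq x h
  have h2D : ∀ x ∈ (t + D) :: q, 2 ≤ x := fun x hx => by
    rcases List.mem_cons.1 hx with rfl | h
    · omega
    · exact hq x h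
  have hA : Adm (((t + K) :: q) ++ s :: List.replicate M 2) := Pool.Agent.Q217.TT.adm_two _ h2K s hs M
  have hB : Adm ([] ++ 2 :: List.replicate M 2) := Pool.Agent.Q217.TT.adm_two [] (by simp) 2 le_rfl M
  refine le_of_tendsto_of_tendsto (tendsto_H _ hA)
    (((tendsto_T (adm_two' h2D) (n0 + 1)).const_mul _).mul (tendsto_H _ hB)) ?_
  refine Eventually.of_forall fun N => ?_
  refine (upper M n0 h0 ((t + K) :: q) s hs N).trans ?_
  refine mul_le_mul_of_nonneg_right (mul_le_mul_of_nonneg_left (ep_letter t D K hDK q _ _) (by positivity))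
    (H_nonneg _ _)

/-- **integer coefficients** -/
theorem two_int (U V : Finset (List ℕ+)) (hU : ∀ u ∈ U, Adm (toN u)) : ∃ κ : ℝ, 0 < κ ∧ κ ≤ 1 / 4 ∧
    ∃ K M : ℕ, ∀ (t s : ℕ) (q : List ℕ), 2 ≤ t → 2 ≤ s → (∀ x ∈ q, 2 ≤ x) →
    ∀ a b : List ℕ+ → ℤ, (∀ u ∈ U, |(a u : ℝ)| ≤ κ * ((q.length : ℝ) + 1)) →
      (∀ v ∈ V, |(b v : ℝ)| ≤ κ * ((q.length : ℝ) + 1)) → (∃ u ∈ U, a u ≠ 0) → (∃ v ∈ V, b v ≠ 0) →
      κ * val (((t + K) :: q) ++ s :: List.replicate M 2) ≤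
        |∑ u ∈ U, ∑ v ∈ V, (a u : ℝ) * (b v : ℝ) * val ((toN u ++ t :: q) ++ s :: toN v)| := by
  obtain ⟨K, P, hK, hP, hind⟩ := data U hU
  obtain ⟨J, B, hJ, hB, hbounds⟩ := two_bounds U K P hP
  obtain ⟨Q, hQ1, hQ⟩ := denom U K fun u k => (P u).coeff k
  obtain ⟨M, hM⟩ := indep_fin V
  obtain ⟨E, hE1, hE⟩ := common_den V M
  obtain ⟨Vc, hVc0, hVc⟩ := exists_Vc V
  have hQr : (1 : ℝ) ≤ Q := by exact_mod_cast hQ1
  have hQ0 : (0 : ℝ) < Q := by linarith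
  have hEr : (1 : ℝ) ≤ E := by exact_mod_cast hE1
  have hE0 : (0 : ℝ) < E := by linarith
  have hJr : (1 : ℝ) ≤ J := by exact_mod_cast hJ
  set V2 : ℝ := val ([] ++ 2 :: List.replicate M 2) with hV2
  have hV20 : 0 ≤ V2 := Pool.Agent.Q217.TT.val_nonneg' (Pool.Agent.Q217.TT.adm_two [] (by simp) 2 le_rfl M)
  set δ1 : ℝ := 1 / (2 * E * ((M : ℝ) + 1) ^ 2) with hδ1
  have hδ10 : 0 < δ1 := by positivity
  set κ : ℝ := min (1 / 4) (min (1 / J) (min (1 / (Q * B)) (min (δ1 / (3 * Vc * ((M : ℝ) + 2)))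
    (1 / (2 * Q) * δ1 / (V2 + 1))))) with hκ
  have hκ0 : 0 < κ := lt_min (by norm_num) (lt_min (by positivity) (lt_min (by positivity)
    (lt_min (by positivity) (by positivity))))
  have hκa : κ ≤ 1 / 4 := min_le_left _ _
  have hκb : κ ≤ 1 / J := (min_le_right _ _).trans (min_le_left _ _)
  have hκc : κ ≤ 1 / (Q * B) := (min_le_right _ _).trans ((min_le_right _ _).trans (min_le_left _ _))
  have hκd : κ ≤ δ1 / (3 * Vc * ((M : ℝ) + 2)) :=
    (min_le_right _ _).trans ((min_le_right _ _).trans ((min_le_right _ _).trans (min_le_left _ _)))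
  have hκe : κ ≤ 1 / (2 * Q) * δ1 / (V2 + 1) :=
    (min_le_right _ _).trans ((min_le_right _ _).trans ((min_le_right _ _).trans (min_le_right _ _)))
  refine ⟨κ, hκ0, hκa, K, M, fun t s q ht hs hq a b ha hb hane hbne => ?_⟩
  have hq0 : (0 : ℝ) < (q.length : ℝ) + 1 := by positivity
  set m : ℝ := κ * ((q.length : ℝ) + 1) with hm
  have hm0 : 0 ≤ m := by positivity
  -- the left part
  obtain ⟨D, hDK, hlow, hlead⟩ := first_coeff U K (fun u k => (P u).coeff k) hind (fun u => (a u : ℝ))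
    (by obtain ⟨u, hu, h⟩ := hane; exact ⟨u, hu, by exact_mod_cast h⟩)
  set L : ℝ := |∑ u ∈ U, (a u : ℝ) * ((P u).coeff D : ℝ)| with hL
  have hL1 : 1 / (Q : ℝ) ≤ L := by
    have e : ∑ u ∈ U, (a u : ℝ) * ((P u).coeff D : ℝ) = ((∑ u ∈ U, (a u : ℚ) * (P u).coeff D : ℚ) : ℝ) := by
      push_cast
      rfl
    have h1 : ∑ u ∈ U, (a u : ℚ) * (P u).coeff D ≠ 0 := by
      intro h0
      apply hlead
      rw [e, h0, Rat.cast_zero]
    have h2 := hQ a D hDK h1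
    have h3 := (Rat.cast_le (K := ℝ)).2 h2
    rw [Rat.cast_div, Rat.cast_one, Rat.cast_natCast, Rat.cast_abs, ← e] at h3
    exact h3
  have hL0 : 0 < L := lt_of_lt_of_le (by positivity) hL1
  have hlen : (J : ℝ) ≤ (q.length : ℝ) + 1 := by
    obtain ⟨u0, hu0, hau0⟩ := hane
    have h1 : (1 : ℝ) ≤ |(a u0 : ℝ)| := by
      rw [← Int.cast_abs]
      exact_mod_cast Int.one_le_abs hau0
    have h2 := h1.trans (ha u0 hu0)
    have h3 : κ * ((q.length : ℝ) + 1) ≤ 1 / J * ((q.length : ℝ) + 1) :=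
      mul_le_mul_of_nonneg_right hκb (by positivity)
    have h4 := h2.trans h3
    rw [one_div, ← div_eq_inv_mul, le_div_iff₀ (by linarith)] at h4
    linarith
  have hlen' : J ≤ q.length + 1 := by exact_mod_cast hlen
  obtain ⟨ε, hε, hf⟩ := hbounds (fun u => (a u : ℝ)) m ha hm0 D hDK hlow
  -- the right part
  have hval : ∀ n, ∑ v ∈ V, (b v : ℝ) * H (toN v) n =
      ((∑ v ∈ V, (b v : ℚ) * Pool.Agent.TH507.HS.hs v (n + 1) : ℚ) : ℝ) := by
    intro n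
    push_cast
    exact Finset.sum_congr rfl fun v _ => by rw [← H_nat]; rfl
  have hex : ∃ n, n ≤ M ∧ ∑ v ∈ V, (b v : ℚ) * Pool.Agent.TH507.HS.hs v (n + 1) ≠ 0 := by
    by_contra h
    push Not at h
    obtain ⟨v, hv, hbv⟩ := hbne
    apply hbv
    have := hM (fun v => (b v : ℚ)) h v hv
    exact_mod_cast this
  have hn0 := Nat.find_spec hex
  have hmin : ∀ n < Nat.find hex, ∑ v ∈ V, (b v : ℝ) * H (toN v) n = 0 := by
    intro n hn
    have h1 := Nat.find_min hex hn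
    rw [hval]
    by_contra h2
    exact h1 ⟨hn.le.trans hn0.1, fun h3 => h2 (by rw [h3, Rat.cast_zero])⟩
  set n0 := Nat.find hex with hn0def
  have hγ : 1 / (E : ℝ) ≤ |∑ v ∈ V, (b v : ℝ) * H (toN v) n0| := by
    have h1 := hE b n0 hn0.1 hn0.2
    rw [hval, ← Rat.cast_abs]
    have h2 := (Rat.cast_le (K := ℝ)).2 h1
    rw [Rat.cast_div, Rat.cast_one, Rat.cast_natCast] at h2
    exact h2
  have hadm := adm_full (V := V) hU ht hs hq
  have hadmU : ∀ u ∈ U, Adm (toN u ++ t :: q) := by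
    intro u hu
    obtain ⟨v, hv, _⟩ := hbne
    exact adm_left (hadm u hu v hv)
  have hcore := core U V Vc hVc (fun u => (a u : ℝ)) (fun v => (b v : ℝ)) m (1 / E) (L / 2) (by positivity) t D s n0 q
    ht hs hq hadm hadmU ε hε (fun j hj => by
      have hjr : (q.length : ℝ) + 1 ≤ j := by exact_mod_cast hj
      refine hf j (hlen'.trans hj) ?_
      calc m * B ≤ 1 / (Q * B) * ((q.length : ℝ) + 1) * B := by
            rw [hm]
            exact mul_le_mul_of_nonneg_right (mul_le_mul_of_nonneg_right hκc (by positivity)) hB.le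
        _ = 1 / Q * ((q.length : ℝ) + 1) := by field_simp
        _ ≤ L * j := mul_le_mul hL1 hjr (by positivity) hL0.le) hb hm0 hmin hγ
  -- the bracket
  have hn0M : (n0 : ℝ) ≤ M := by exact_mod_cast hn0.1
  have hn00 : (0 : ℝ) ≤ n0 := Nat.cast_nonneg _
  have hbr : δ1 ≤ 1 / E * (((n0 + 1 : ℕ) : ℝ) ^ 2)⁻¹ - 3 * m * Vc * ((n0 : ℝ) + 2) / (q.length + 1) := by
    have h1 : 3 * m * Vc * ((n0 : ℝ) + 2) / (q.length + 1) = 3 * κ * Vc * ((n0 : ℝ) + 2) := by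
      rw [hm]
      field_simp
    have h2 : 3 * κ * Vc * ((n0 : ℝ) + 2) ≤ 3 * κ * Vc * ((M : ℝ) + 2) :=
      mul_le_mul_of_nonneg_left (by linarith) (by positivity)
    have h3 : 3 * κ * Vc * ((M : ℝ) + 2) ≤ δ1 := by
      rw [le_div_iff₀ (by positivity)] at hκd
      linarith
    have h5 : 1 / (E : ℝ) * (((M : ℝ) + 1) ^ 2)⁻¹ ≤ 1 / E * (((n0 + 1 : ℕ) : ℝ) ^ 2)⁻¹ := by
      refine mul_le_mul_of_nonneg_left ?_ (by positivity)
      apply inv_anti₀ (by positivity)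
      push_cast
      apply pow_le_pow_left₀ (by positivity)
      linarith
    have h6 : 1 / (E : ℝ) * (((M : ℝ) + 1) ^ 2)⁻¹ = 2 * δ1 := by
      rw [hδ1]
      field_simp
    rw [h1]
    linarith
  have hG := upper_val M n0 hn0.1 t D K hDK.le ht q hq s hs
  set G : ℝ := T ((t + D) :: q) (n0 + 1) with hGdef
  have hadmD : Adm ((t + D) :: q) := adm_two' fun x hx => by
    rcases List.mem_cons.1 hx with rfl | h
    · omega
    · exact hq x h
  have hG0 : 0 ≤ G := T_nonneg hadmD _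
  set R : ℝ := (((n0 + 1 : ℕ) : ℝ) ^ (s - 2))⁻¹ with hR
  have hR0 : 0 ≤ R := by positivity
  set X : ℝ := val (((t + K) :: q) ++ s :: List.replicate M 2) with hX
  have hRG : 0 ≤ R * G := mul_nonneg hR0 hG0
  calc κ * X ≤ 1 / (2 * Q) * δ1 / (V2 + 1) * X := by
        refine mul_le_mul_of_nonneg_right hκe ?_
        exact Pool.Agent.Q217.TT.val_nonneg' (Pool.Agent.Q217.TT.adm_two _ (fun x hx => by
          rcases List.mem_cons.1 hx with rfl | h
          · omega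
          · exact hq x h) s hs M)
    _ ≤ 1 / (2 * Q) * δ1 / (V2 + 1) * (R * G * (V2 + 1)) := by
        refine mul_le_mul_of_nonneg_left (hG.trans ?_) (by positivity)
        exact mul_le_mul_of_nonneg_left (by linarith) hRG
    _ = 1 / (2 * Q) * (G * (R * δ1)) := by field_simp
    _ ≤ L / 2 * (G * (R * δ1)) := by
        refine mul_le_mul_of_nonneg_right ?_ (by positivity)
        calc 1 / (2 * (Q : ℝ)) = 1 / Q / 2 := by field_simp
          _ ≤ L / 2 := by linarith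
    _ = L / 2 * G * (R * δ1) := by ring
    _ ≤ L / 2 * G * (R * (1 / E * (((n0 + 1 : ℕ) : ℝ) ^ 2)⁻¹ - 3 * m * Vc * ((n0 : ℝ) + 2) / (q.length + 1))) :=
        mul_le_mul_of_nonneg_left (mul_le_mul_of_nonneg_left hbr hR0) (by positivity)
    _ ≤ _ := hcore

/-- **real coefficients** -/
theorem two_real (U V : Finset (List ℕ+)) (hU : ∀ u ∈ U, Adm (toN u)) (a b : List ℕ+ → ℝ)
    (hane : ∃ u ∈ U, a u ≠ 0) (hbne : ∃ v ∈ V, b v ≠ 0) : ∃ L : ℕ, ∀ (t s : ℕ) (q : List ℕ), 2 ≤ t → 2 ≤ s →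
      (∀ x ∈ q, 2 ≤ x) → L ≤ q.length →
        ∑ u ∈ U, ∑ v ∈ V, a u * b v * val ((toN u ++ t :: q) ++ s :: toN v) ≠ 0 := by
  obtain ⟨K, P, hK, hP, hind⟩ := data U hU
  obtain ⟨J, B, hJ, hB, hbounds⟩ := two_bounds U K P hP
  obtain ⟨M, hM⟩ := indep_fin V
  obtain ⟨Vc, hVc0, hVc⟩ := exists_Vc V
  obtain ⟨D, hDK, hlow, hlead⟩ := first_coeff U K (fun u k => (P u).coeff k) hind a hane
  set L : ℝ := |∑ u ∈ U, a u * ((P u).coeff D : ℝ)| with hL
  have hL0 : 0 < L := abs_pos.2 hlead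
  set α : ℝ := ∑ u ∈ U, |a u| with hα
  have hα0 : 0 ≤ α := Finset.sum_nonneg fun u _ => abs_nonneg _
  have haα : ∀ u ∈ U, |a u| ≤ α := fun u hu =>
    Finset.single_le_sum (f := fun u => |a u|) (fun _ _ => abs_nonneg _) hu
  obtain ⟨ε, hε, hf⟩ := hbounds a α haα hα0 D hDK hlow
  set β : ℝ := ∑ v ∈ V, |b v| with hβ
  have hβ0 : 0 ≤ β := Finset.sum_nonneg fun u _ => abs_nonneg _
  have hbβ : ∀ v ∈ V, |b v| ≤ β := fun v hv =>
    Finset.single_le_sum (f := fun v => |b v|) (fun _ _ => abs_nonneg _) hv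
  have hval : ∀ n, ∑ v ∈ V, b v * H (toN v) n =
      ∑ v ∈ V, b v * ((Pool.Agent.TH507.HS.hs v (n + 1) : ℚ) : ℝ) := by
    intro n
    exact Finset.sum_congr rfl fun v _ => by rw [← H_nat]; rfl
  have hex : ∃ n, ∑ v ∈ V, b v * H (toN v) n ≠ 0 := by
    by_contra h
    push Not at h
    obtain ⟨v, hv, hbv⟩ := hbne
    apply hbv
    refine real_of_rat V (M + 1) (fun v n => Pool.Agent.TH507.HS.hs v (n + 1)) (fun c hc => hM c fun n hn =>
      hc n (by omega)) b (fun n _ => ?_) v hv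
    rw [← hval]
    exact h n
  set n0 := Nat.find hex with hn0def
  have hn0 : ∑ v ∈ V, b v * H (toN v) n0 ≠ 0 := Nat.find_spec hex
  have hmin : ∀ n < n0, ∑ v ∈ V, b v * H (toN v) n = 0 := by
    intro n hn
    have h1 := Nat.find_min hex hn
    by_contra h2
    exact h1 h2
  set γ : ℝ := |∑ v ∈ V, b v * H (toN v) n0| with hγ
  have hγ0 : 0 < γ := abs_pos.2 hn0
  obtain ⟨L1, hL1⟩ := exists_nat_ge (α * B / L)
  set y : ℝ := γ * (((n0 + 1 : ℕ) : ℝ) ^ 2)⁻¹ with hy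
  have hy0 : 0 < y := by positivity
  obtain ⟨L2, hL2⟩ := exists_nat_gt (3 * β * Vc * ((n0 : ℝ) + 2) / y)
  refine ⟨J + L1 + L2, fun t s q ht hs hq hlen h0 => ?_⟩
  have hadm := adm_full (V := V) hU ht hs hq
  have hadmU : ∀ u ∈ U, Adm (toN u ++ t :: q) := by
    intro u hu
    obtain ⟨v, hv, _⟩ := hbne
    exact adm_left (hadm u hu v hv)
  have hcore := core U V Vc hVc a b β γ (L / 2) (by positivity) t D s n0 q
    ht hs hq hadm hadmU ε hε (fun j hj => by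
      refine hf j (by omega) ?_
      rw [div_le_iff₀ hL0] at hL1
      have h4 : (L1 : ℝ) ≤ j := by exact_mod_cast (by omega : L1 ≤ j)
      calc α * B ≤ L1 * L := hL1
        _ ≤ j * L := mul_le_mul_of_nonneg_right h4 hL0.le
        _ = _ := mul_comm _ _) hbβ hβ0 hmin le_rfl
  rw [h0, abs_zero] at hcore
  have hadmD : Adm ((t + D) :: q) := adm_two' fun x hx => by
    rcases List.mem_cons.1 hx with rfl | h
    · omega
    · exact hq x h
  have hG0 : 0 < T ((t + D) :: q) (n0 + 1) := T_pos hadmD _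
  have hq0 : (0 : ℝ) < (q.length : ℝ) + 1 := by positivity
  have hbr : 0 < γ * (((n0 + 1 : ℕ) : ℝ) ^ 2)⁻¹ - 3 * β * Vc * ((n0 : ℝ) + 2) / (q.length + 1) := by
    rw [← hy, sub_pos, div_lt_iff₀ hq0]
    rw [div_lt_iff₀ hy0] at hL2
    have h4 : (L2 : ℝ) ≤ (q.length : ℝ) + 1 := by exact_mod_cast (by omega : L2 ≤ q.length + 1)
    calc 3 * β * Vc * ((n0 : ℝ) + 2) < L2 * y := hL2
      _ ≤ ((q.length : ℝ) + 1) * y := mul_le_mul_of_nonneg_right h4 hy0.le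
      _ = _ := mul_comm _ _
  have h1 : 0 < L / 2 * T ((t + D) :: q) (n0 + 1) * ((((n0 + 1 : ℕ) : ℝ) ^ (s - 2))⁻¹ *
      (γ * (((n0 + 1 : ℕ) : ℝ) ^ 2)⁻¹ - 3 * β * Vc * ((n0 : ℝ) + 2) / (q.length + 1))) := by positivity
  linarith

end Pool.Agent.K9h52.CS
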